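import Pool.Agent.Lib.MP_49bd53_lc.SP.Stm

open scoped Classical

namespace Pool.Agent.MP_49bd53_lc

open Finset

theorem p_am_compl {N : Type} [Fintype N] (R : N → N → Prop) (p : N → ℕ) (S : Finset N)
    [DecidablePred (fun c => ¬ ∀ a ∈ S, R a c)] :
    after R p univ S + ∑ c ∈ univ.filter (fun c => ¬ ∀ a ∈ S, R a c), p c = ∑ c, p c := by
  unfold after
  convert Finset.sum_filter_add_sum_filter_not univ (fun c => ∀ a ∈ S, R a c) p

theorem p_am (h_qs : S_qs) (h_sr : S_sr) (h_to : S_to) (h_bx : S_bx) : S_am := by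
  intro N _ I X hX
  obtain ⟨T, hT, hT2⟩ := h_to N I X hX
  obtain ⟨D, hD⟩ : ∃ D : N → Finset N, ∀ i j, i ∈ D j ↔ I.le i j :=
    ⟨fun j => univ.filter (fun k => I.le k j), fun i j => by simp⟩
  obtain ⟨σ, hσ, hqs⟩ := h_qs N T hT I.p I.p_pos N I.w D
  obtain ⟨s, hs, hsk⟩ := h_sr N (ℕ ×ₗ ℕ) (fun j => toLex ((D j).sup σ, (D j).card))
  have hself : ∀ j, j ∈ D j := fun j => (hD j j).2 (Or.inr rfl)
  have hle_trans : ∀ a b c, I.le a b → I.le b c → I.le a c := by
    intro a b c hab hbc
    rcases hab with hab | rfl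
    · rcases hbc with hbc | rfl
      · exact Or.inl (I.trans _ _ _ hab hbc)
      · exact Or.inl hab
    · exact hbc
  refine ⟨s, ⟨hs, ?_⟩, ?_⟩
  · intro i j hij
    apply hsk
    have hsub : D i ⊆ D j := by
      intro a ha
      rw [hD] at ha ⊢
      exact hle_trans _ _ _ ha (Or.inl hij)
    have hjn : j ∉ D i := by
      rw [hD]
      rintro (h | h)
      · exact I.irrefl _ (I.trans _ _ _ hij h)
      · rw [h] at hij
        exact I.irrefl _ hij
    have hssub : D i ⊂ D j := by
      refine Finset.ssubset_iff_subset_ne.2 ⟨hsub, ?_⟩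
      intro h
      exact hjn (h ▸ hself j)
    have h1 : (D i).sup σ ≤ (D j).sup σ := Finset.sup_mono hsub
    have h2 : (D i).card < (D j).card := Finset.card_lt_card hssub
    rw [Prod.Lex.toLex_lt_toLex]
    rcases h1.lt_or_eq with h | h
    · exact Or.inl h
    · exact Or.inr ⟨h, h2⟩
  · have hcomp : ∀ j, I.completion s j ≤
        ∑ c ∈ univ.filter (fun c => ¬ ∀ a ∈ D j, σ a < σ c), I.p c := by
      intro j
      unfold Inst.completion
      apply Finset.sum_le_sum_of_subset
      intro i hi
      simp only [Finset.mem_filter, Finset.mem_univ, true_and] at hi ⊢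
      have hk : ¬ (toLex ((D j).sup σ, (D j).card) : ℕ ×ₗ ℕ) <
          toLex ((D i).sup σ, (D i).card) := by
        intro h
        exact absurd (hsk j i h) (not_lt.2 hi)
      have hsup : (D i).sup σ ≤ (D j).sup σ := by
        by_contra h
        rw [not_le] at h
        apply hk
        rw [Prod.Lex.toLex_lt_toLex]
        exact Or.inl h
      have h1 : σ i ≤ (D i).sup σ := Finset.le_sup (hself i)
      obtain ⟨a, ha, hae⟩ := Finset.exists_mem_eq_sup (D j) ⟨j, hself j⟩ σ
      intro hall
      have h2 := hall a ha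
      rw [← hae] at h2
      omega
    have hbase : ∀ j, ∑ c ∈ univ.filter (fun c => ¬ ∀ a ∈ D j, T a c), I.p c ≤
        ∑ i ∈ univ.filter (fun i => i = j ∨ I.prec i j ∨ ∃ q ∈ X, q.1 = (i, j)), I.p i := by
      intro j
      apply Finset.sum_le_sum_of_subset
      intro c hc
      simp only [Finset.mem_filter, Finset.mem_univ, true_and, not_forall] at hc ⊢
      obtain ⟨a, ha, hac⟩ := hc
      rw [hD] at ha
      by_cases hca : c = a
      · subst hca
        rcases ha with ha | ha
        · exact Or.inr (Or.inl ha)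
        · exact Or.inl ha
      · have hTca : T c a := by
          rw [hT.2 c a hca]
          exact hac
        exact hT2 c a j hTca ha
    have hsum : ∑ j, I.w j * (after T I.p univ (D j) +
          ∑ c ∈ univ.filter (fun c => ¬ ∀ a ∈ D j, T a c), I.p c) =
        ∑ j, I.w j * (after (fun a c => σ a < σ c) I.p univ (D j) +
          ∑ c ∈ univ.filter (fun c => ¬ ∀ a ∈ D j, σ a < σ c), I.p c) := by
      apply Finset.sum_congr rfl
      intro j _
      have e1 := p_am_compl T I.p (D j)
      have e2 := p_am_compl (fun a c => σ a < σ c) I.p (D j)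
      rw [e1, e2]
    simp only [mul_add, Finset.sum_add_distrib] at hsum
    have h1 : I.cost s ≤ ∑ j, I.w j *
        ∑ c ∈ univ.filter (fun c => ¬ ∀ a ∈ D j, σ a < σ c), I.p c := by
      unfold Inst.cost
      exact Finset.sum_le_sum (fun j _ => Nat.mul_le_mul_left _ (hcomp j))
    have h2 : ∑ j, I.w j * ∑ c ∈ univ.filter (fun c => ¬ ∀ a ∈ D j, T a c), I.p c ≤
        I.base + ∑ q ∈ X, I.wt q := by
      rw [← h_bx N I X]
      exact Finset.sum_le_sum (fun j _ => Nat.mul_le_mul_left _ (hbase j))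
    omega

end Pool.Agent.MP_49bd53_lc
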