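import Pool.Agent.Lib.MP_49bd53_lc.SP.Stm

/-!
# MP_49bd53_lc, [SP bl]: the linear programme of a blow-up
-/

open scoped Classical

namespace Pool.Agent.MP_49bd53_lc

private theorem bl_bdd {V : Type} [Fintype V] (G : SimpleGraph V) (wt : V → ℕ) :
    BddBelow {r | ∃ x : V → ℝ, IsFrac G x ∧ r = ∑ v, (wt v : ℝ) * x v} := by
  refine ⟨0, ?_⟩
  rintro r ⟨x, hx, rfl⟩
  exact Finset.sum_nonneg fun v _ => mul_nonneg (Nat.cast_nonneg _) (hx.1 v).1

private theorem bl_ne {V : Type} [Fintype V] (G : SimpleGraph V) (wt : V → ℕ) :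
    {r | ∃ x : V → ℝ, IsFrac G x ∧ r = ∑ v, (wt v : ℝ) * x v}.Nonempty :=
  ⟨_, fun _ => 1, ⟨fun _ => ⟨zero_le_one, le_rfl⟩, fun _ _ _ => by norm_num⟩, rfl⟩

theorem p_bl : S_bl := by
  intro V _ G c
  apply le_antisymm
  · -- a solution of `G` gives one of the blow-up
    refine le_csInf (bl_ne G c) ?_
    rintro r ⟨x, hx, rfl⟩
    refine csInf_le (bl_bdd _ _) ⟨fun a => x a.1, ⟨fun a => hx.1 a.1, ?_⟩, ?_⟩
    · intro a b hab
      exact hx.2 a.1 b.1 hab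
    · rw [Fintype.sum_sigma]
      refine Finset.sum_congr rfl fun v _ => ?_
      simp
  · refine le_csInf (bl_ne (blowup G c) fun _ => 1) ?_
    rintro r ⟨z, hz, rfl⟩
    have key : ∀ v, ∃ t : ℝ, 0 ≤ t ∧ t ≤ 1 ∧ (∀ i : Fin (c v), t ≤ z ⟨v, i⟩) ∧
        ((∃ i : Fin (c v), t = z ⟨v, i⟩) ∨ (c v = 0 ∧ t = 1)) := by
      intro v
      by_cases h : 0 < c v
      · haveI : Nonempty (Fin (c v)) := ⟨⟨0, h⟩⟩
        obtain ⟨i, hi⟩ := Finite.exists_min fun i : Fin (c v) => z ⟨v, i⟩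
        exact ⟨z ⟨v, i⟩, (hz.1 _).1, (hz.1 _).2, hi, Or.inl ⟨i, rfl⟩⟩
      · have h0 : c v = 0 := by omega
        refine ⟨1, zero_le_one, le_rfl, fun i => ?_, Or.inr ⟨h0, rfl⟩⟩
        exact absurd i.2 (by omega)
    choose x hx0 hx1 hxle hxeq using key
    have hfrac : IsFrac G x := by
      refine ⟨fun v => ⟨hx0 v, hx1 v⟩, ?_⟩
      intro u v huv
      rcases hxeq u with ⟨i, hi⟩ | ⟨_, hi⟩
      · rcases hxeq v with ⟨j, hj⟩ | ⟨_, hj⟩
        · rw [hi, hj]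
          exact hz.2 ⟨u, i⟩ ⟨v, j⟩ huv
        · rw [hj]
          linarith [hx0 u]
      · rw [hi]
        linarith [hx0 v]
    have hle : ∑ v, (c v : ℝ) * x v ≤ ∑ a : Copies c, (((fun _ => 1 : Copies c → ℕ) a : ℕ) : ℝ) * z a := by
      rw [Fintype.sum_sigma]
      refine Finset.sum_le_sum fun v _ => ?_
      have h1 : ∑ _i : Fin (c v), x v ≤ ∑ i : Fin (c v), z ⟨v, i⟩ :=
        Finset.sum_le_sum fun i _ => hxle v i
      rw [Finset.sum_const, Finset.card_univ, Fintype.card_fin, nsmul_eq_mul] at h1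
      simpa using h1
    exact (csInf_le (bl_bdd G c) ⟨x, hfrac, rfl⟩).trans hle

end Pool.Agent.MP_49bd53_lc
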