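import Pool.Agent.Lib.MP_49bd53_lc.SP.Stm

open scoped Classical

namespace Pool.Agent.MP_49bd53_lc

theorem p_bv : S_bv := by
  intro V _ G c
  have ne1 : {d | ∃ C : Finset V, IsCover G C ∧ d = ∑ v ∈ C, c v}.Nonempty :=
    ⟨_, Finset.univ, fun u v _ => Or.inl (Finset.mem_univ u), rfl⟩
  have ne2 : {d | ∃ C : Finset (Copies c), IsCover (blowup G c) C ∧
      d = ∑ v ∈ C, (fun _ => 1 : Copies c → ℕ) v}.Nonempty :=
    ⟨_, Finset.univ, fun u v _ => Or.inl (Finset.mem_univ u), rfl⟩
  apply le_antisymm
  · obtain ⟨C, hC, hval⟩ := Nat.sInf_mem ne1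
    have h1 : vc G c = ∑ v ∈ C, c v := hval
    rw [h1]
    apply Nat.sInf_le
    refine ⟨Finset.univ.filter (fun a : Copies c => a.1 ∈ C), ?_, ?_⟩
    · intro a b hab
      have hab' : G.Adj a.1 b.1 := hab
      rcases hC a.1 b.1 hab' with h | h
      · exact Or.inl (by simp [h])
      · exact Or.inr (by simp [h])
    · have h2 : (Finset.univ.filter (fun a : Copies c => a.1 ∈ C)) =
          C.sigma (fun v => (Finset.univ : Finset (Fin (c v)))) := by
        ext a
        simp
      rw [h2, Finset.sum_sigma]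
      simp
  · obtain ⟨D, hD, hval⟩ := Nat.sInf_mem ne2
    have h1 : vc (blowup G c) (fun _ => 1) = ∑ v ∈ D, (fun _ => 1 : Copies c → ℕ) v := hval
    rw [h1]
    set C : Finset V := Finset.univ.filter (fun v => ∀ i : Fin (c v), (⟨v, i⟩ : Copies c) ∈ D)
      with hCdef
    have hC : IsCover G C := by
      intro u v huv
      by_contra hcon
      push Not at hcon
      obtain ⟨hu, hv⟩ := hcon
      simp only [hCdef, Finset.mem_filter, Finset.mem_univ, true_and, not_forall] at hu hv
      obtain ⟨i, hi⟩ := hu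
      obtain ⟨j, hj⟩ := hv
      have hadj : (blowup G c).Adj (⟨u, i⟩ : Copies c) ⟨v, j⟩ := huv
      rcases hD _ _ hadj with h | h
      · exact hi h
      · exact hj h
    have h3 : vc G c ≤ ∑ v ∈ C, c v := Nat.sInf_le ⟨C, hC, rfl⟩
    refine le_trans h3 ?_
    have h4 : ∑ v ∈ C, c v =
        (C.sigma (fun v => (Finset.univ : Finset (Fin (c v))))).card := by
      rw [Finset.card_sigma]
      simp
    rw [h4]
    have h5 : C.sigma (fun v => (Finset.univ : Finset (Fin (c v)))) ⊆ D := by
      intro a ha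
      rw [Finset.mem_sigma] at ha
      have := ha.1
      simp only [hCdef, Finset.mem_filter, Finset.mem_univ, true_and] at this
      exact this a.2
    calc _ ≤ D.card := Finset.card_le_card h5
      _ = _ := by simp

end Pool.Agent.MP_49bd53_lc
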