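import Pool.Agent.Lib.MP_49bd53_lc.SP.Stm

/-! # The weight of a set of pairs -/

open scoped Classical

namespace Pool.Agent.MP_49bd53_lc

open Finset

theorem p_bx : S_bx := by
  intro N _ I X
  have h1 : ∑ j, I.w j * ∑ i ∈ univ.filter
      (fun i => i = j ∨ I.prec i j ∨ ∃ q ∈ X, q.1 = (i, j)), I.p i =
      ∑ q : N × N, (if q.1 = q.2 then I.p q.1 * I.w q.2 else 0) +
      ∑ q : N × N, (if I.prec q.1 q.2 then I.p q.1 * I.w q.2 else 0) +
      ∑ q : N × N, (if q ∈ X.image Subtype.val then I.p q.1 * I.w q.2 else 0) := by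
    rw [← Finset.sum_add_distrib, ← Finset.sum_add_distrib, Fintype.sum_prod_type_right]
    refine Finset.sum_congr rfl fun j _ => ?_
    rw [Finset.mul_sum, Finset.sum_filter]
    refine Finset.sum_congr rfl fun i _ => ?_
    have hX : (∃ q ∈ X, q.1 = (i, j)) ↔ (i, j) ∈ X.image Subtype.val := by
      rw [Finset.mem_image]
    have hX2 : (i, j) ∈ X.image Subtype.val → i ≠ j ∧ ¬ I.prec i j := by
      intro h
      obtain ⟨q, _, hq⟩ := Finset.mem_image.mp h
      have := q.2
      rw [hq] at this
      exact ⟨this.1, this.2.1⟩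
    show _ = (if i = j then I.p i * I.w j else 0) + (if I.prec i j then I.p i * I.w j else 0) +
      (if (i, j) ∈ X.image Subtype.val then I.p i * I.w j else 0)
    by_cases ha : i = j
    · have hb : ¬ I.prec i j := by
        rw [ha]
        exact I.irrefl j
      have hc : (i, j) ∉ X.image Subtype.val := fun h => (hX2 h).1 ha
      rw [if_pos (Or.inl ha), if_pos ha, if_neg hb, if_neg hc]
      ring
    · by_cases hb : I.prec i j
      · have hc : (i, j) ∉ X.image Subtype.val := fun h => (hX2 h).2 hb
        rw [if_pos (Or.inr (Or.inl hb)), if_neg ha, if_pos hb, if_neg hc]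
        ring
      · by_cases hc : (i, j) ∈ X.image Subtype.val
        · rw [if_pos (Or.inr (Or.inr (hX.mpr hc))), if_neg ha, if_neg hb, if_pos hc]
          ring
        · have hd : ¬ (i = j ∨ I.prec i j ∨ ∃ q ∈ X, q.1 = (i, j)) := by
            rintro (h | h | h)
            · exact ha h
            · exact hb h
            · exact hc (hX.mp h)
          rw [if_neg hd, if_neg ha, if_neg hb, if_neg hc, add_zero, add_zero]
  rw [h1]
  unfold Inst.base
  have hd : ∑ q : N × N, (if q.1 = q.2 then I.p q.1 * I.w q.2 else 0) = ∑ j, I.p j * I.w j := by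
    rw [Fintype.sum_prod_type]
    refine Finset.sum_congr rfl fun i _ => ?_
    show ∑ j, (if i = j then I.p i * I.w j else 0) = _
    rw [Finset.sum_ite_eq, if_pos (Finset.mem_univ i)]
  have he : ∑ q : N × N, (if q ∈ X.image Subtype.val then I.p q.1 * I.w q.2 else 0) =
      ∑ q ∈ X, I.wt q := by
    rw [Finset.sum_ite_mem, Finset.univ_inter, Finset.sum_image]
    · rfl
    · intro a _ b _ h
      exact Subtype.ext h
  rw [hd, he, Finset.sum_filter]

end Pool.Agent.MP_49bd53_lc
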