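import Pool.Agent.Lib.MP_49bd53_lc.SP.Stm

/-!
# MP_49bd53_lc : piece cd, the number of vertices of the blow-up
-/

open scoped Classical

namespace Pool.Agent.MP_49bd53_lc

noncomputable section

open Finset

private theorem cd_trunc {V : Type} [Fintype V] {G : SimpleGraph V} {wt : V → ℕ} {y : V → V → ℕ}
    (h : OptDual G wt y) (K : ℕ) (v : V) : trunc wt y K v ≤ Fintype.card V * (K + 1) := by
  have h0 : y v v = 0 := by
    by_contra hne
    exact G.loopless.irrefl v (h.supp v v hne)
  have h1 : ∑ u, min (y v u) (K + 1) ≤ (Fintype.card V - 1) * (K + 1) := by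
    rw [← Finset.add_sum_erase _ _ (Finset.mem_univ v), h0]
    have h2 : ∑ u ∈ univ.erase v, min (y v u) (K + 1) ≤ ∑ u ∈ univ.erase v, (K + 1) :=
      Finset.sum_le_sum fun u _ => min_le_right _ _
    rw [Finset.sum_const, Finset.card_erase_of_mem (Finset.mem_univ v), Finset.card_univ,
      smul_eq_mul] at h2
    simpa using h2
  have h3 : 0 < Fintype.card V := Fintype.card_pos_iff.2 ⟨v⟩
  unfold trunc
  have h4 : min (2 * wt v - ∑ u, y v u) (K + 1) ≤ K + 1 := min_le_right _ _
  calc _ ≤ (Fintype.card V - 1) * (K + 1) + (K + 1) := Nat.add_le_add h1 h4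
    _ = (Fintype.card V - 1 + 1) * (K + 1) := by ring
    _ = Fintype.card V * (K + 1) := by rw [Nat.sub_add_cancel h3]

theorem p_cd : S_cd := by
  intro N _ I y h K
  have h1 : Fintype.card (Copies (trunc I.wt y K)) = ∑ v, trunc I.wt y K v := by
    rw [Fintype.card_sigma]
    exact Finset.sum_congr rfl fun v _ => Fintype.card_fin _
  have h2 : ∑ v, trunc I.wt y K v ≤ ∑ _v : I.Pair, Fintype.card I.Pair * (K + 1) :=
    Finset.sum_le_sum fun v _ => cd_trunc h K v
  rw [Finset.sum_const, Finset.card_univ, smul_eq_mul] at h2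
  have h3 : Fintype.card I.Pair ≤ Fintype.card N ^ 2 := by
    refine (Fintype.card_subtype_le _).trans ?_
    rw [Fintype.card_prod, pow_two]
  rw [h1]
  refine h2.trans ?_
  calc Fintype.card I.Pair * (Fintype.card I.Pair * (K + 1))
      ≤ Fintype.card N ^ 2 * (Fintype.card N ^ 2 * (K + 1)) :=
        Nat.mul_le_mul h3 (Nat.mul_le_mul_right _ h3)
    _ = (K + 1) * Fintype.card N ^ 4 := by ring

end

end Pool.Agent.MP_49bd53_lc
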