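import Pool.Agent.Lib.MP_49bd53_lc.SP.Stm

open scoped Classical

namespace Pool.Agent.MP_49bd53_lc

theorem p_du (h_kg : S_kg) (h_wd : S_wd) : S_du := by
  intro V _ G wt
  obtain ⟨x₀, y, hx2, hxe, hys, hyG, hyl, hopt⟩ := h_kg V G wt
  have hoptR : (2 : ℝ) * ∑ v, (wt v : ℝ) * (x₀ v : ℝ) = ∑ u, ∑ v, (y u v : ℝ) := by
    exact_mod_cast hopt
  -- the primal solution
  let x : V → ℝ := fun v => (x₀ v : ℝ) / 2
  have hx : IsFrac G x := by
    refine ⟨fun v => ⟨by positivity, ?_⟩, fun u v huv => ?_⟩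
    · have : (x₀ v : ℝ) ≤ 2 := by exact_mod_cast hx2 v
      show (x₀ v : ℝ) / 2 ≤ 1
      linarith
    · have : (2 : ℝ) ≤ (x₀ u : ℝ) + (x₀ v : ℝ) := by exact_mod_cast hxe u v huv
      show 1 ≤ (x₀ u : ℝ) / 2 + (x₀ v : ℝ) / 2
      linarith
  have hxval : 4 * ∑ v, (wt v : ℝ) * x v = ∑ u, ∑ v, (y u v : ℝ) := by
    rw [← hoptR]
    have : ∀ v, (wt v : ℝ) * x v = ((wt v : ℝ) * (x₀ v : ℝ)) / 2 := by
      intro v
      show (wt v : ℝ) * ((x₀ v : ℝ) / 2) = _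
      ring
    simp only [this]
    rw [← Finset.sum_div]
    ring
  -- weak duality
  have hweak : ∀ x' : V → ℝ, IsFrac G x' →
      ∑ u, ∑ v, (y u v : ℝ) ≤ 4 * ∑ v, (wt v : ℝ) * x' v := by
    intro x' hx'
    have h := h_wd V (fun v => (wt v : ℝ)) (fun u v => (y u v : ℝ)) x'
      (fun u v => by rw [hys u v])
    have h1 : 0 ≤ ∑ v, (2 * (wt v : ℝ) - ∑ u, (y v u : ℝ)) * x' v := by
      refine Finset.sum_nonneg fun v _ => mul_nonneg ?_ (hx'.1 v).1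
      have : (∑ u, (y v u : ℝ)) ≤ 2 * (wt v : ℝ) := by exact_mod_cast hyl v
      linarith
    have h2 : 0 ≤ ∑ u, ∑ v, (y u v : ℝ) * (x' u + x' v - 1) := by
      refine Finset.sum_nonneg fun u _ => Finset.sum_nonneg fun v _ => ?_
      by_cases h0 : y u v = 0
      · rw [h0]
        simp
      · have := hx'.2 u v (hyG u v h0)
        exact mul_nonneg (by positivity) (by linarith)
    rw [h]
    linarith
  have hlp : lp G wt = ∑ v, (wt v : ℝ) * x v := by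
    unfold lp
    refine IsLeast.csInf_eq ⟨⟨x, hx, rfl⟩, ?_⟩
    rintro r ⟨x', hx', rfl⟩
    have := hweak x' hx'
    linarith
  refine ⟨⟨x, hx, hlp⟩, y, ⟨hys, hyG, hyl, ?_⟩⟩
  rw [hlp, hxval]
  push_cast
  rfl

end Pool.Agent.MP_49bd53_lc
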