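import Pool.Agent.Lib.MP_49bd53_lc.SP.Stm

/-!
# MP_49bd53_lc : the weight of a vertex cover above the linear programme
-/

open scoped Classical

namespace Pool.Agent.MP_49bd53_lc

open Finset

theorem p_ex : S_ex := by
  intro V _ G z t C hsymm hsupp hC
  have h0 : ∀ u ∈ Cᶜ, ∀ v ∈ Cᶜ, z u v = 0 := by
    intro u hu v hv
    by_contra hne
    rcases hC u v (hsupp u v hne) with h | h
    · exact (Finset.mem_compl.1 hu) h
    · exact (Finset.mem_compl.1 hv) h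
  have hsplit : ∀ u, ∑ v, z u v = ∑ v ∈ C, z u v + ∑ v ∈ Cᶜ, z u v :=
    fun u => (Finset.sum_add_sum_compl C (fun v => z u v)).symm
  have h1 : ∑ u, ∑ v, z u v = ∑ u ∈ C, ∑ v, z u v + ∑ u ∈ Cᶜ, ∑ v, z u v :=
    (Finset.sum_add_sum_compl C (fun u => ∑ v, z u v)).symm
  have h2 : ∑ u ∈ Cᶜ, ∑ v, z u v = ∑ u ∈ Cᶜ, ∑ v ∈ C, z u v := by
    refine Finset.sum_congr rfl fun u hu => ?_
    rw [hsplit u, Finset.sum_eq_zero (h0 u hu), Nat.add_zero]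
  have h3 : ∑ u ∈ Cᶜ, ∑ v ∈ C, z u v = ∑ u ∈ C, ∑ v ∈ Cᶜ, z u v := by
    rw [Finset.sum_comm]
    exact Finset.sum_congr rfl fun u _ => Finset.sum_congr rfl fun v _ => hsymm v u
  have h4 : ∑ u ∈ C, ∑ v, z u v = ∑ u ∈ C, ∑ v ∈ C, z u v + ∑ u ∈ C, ∑ v ∈ Cᶜ, z u v := by
    rw [← Finset.sum_add_distrib]
    exact Finset.sum_congr rfl fun u _ => hsplit u
  rw [Finset.sum_add_distrib, h1, h2, h3, h4]
  ring

end Pool.Agent.MP_49bd53_lc
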