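import Pool.Agent.Lib.MP_49bd53_lc.SP.Stm

/-!
# MP_49bd53_lc : Hall's theorem with multiplicities
-/

open scoped Classical

namespace Pool.Agent.MP_49bd53_lc

open Finset

theorem p_hl : S_hl := by
  intro A B _ _ R a b h
  let t : ((i : A) × Fin (a i)) → Finset ((j : B) × Fin (b j)) :=
    fun α => univ.filter (fun β => R α.1 β.1)
  have hall : ∀ s : Finset ((i : A) × Fin (a i)), s.card ≤ (s.biUnion t).card := by
    intro s
    have h1 : s.card ≤ ∑ i ∈ s.image Sigma.fst, a i := by
      have hsub : s ⊆ (s.image Sigma.fst).sigma (fun i => (univ : Finset (Fin (a i)))) := by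
        intro α hα
        simp only [mem_sigma, mem_univ, and_true]
        exact mem_image_of_mem _ hα
      have h3 := card_le_card hsub
      rw [card_sigma] at h3
      simpa using h3
    have h2 : ∑ j ∈ univ.filter (fun j => ∃ i ∈ s.image Sigma.fst, R i j), b j
        ≤ (s.biUnion t).card := by
      have hsub : (univ.filter (fun j => ∃ i ∈ s.image Sigma.fst, R i j)).sigma
          (fun j => (univ : Finset (Fin (b j)))) ⊆ s.biUnion t := by
        intro β hβ
        simp only [mem_sigma, mem_filter, mem_univ, true_and, and_true, mem_image] at hβ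
        obtain ⟨i, ⟨α, hα, rfl⟩, hR⟩ := hβ
        simp only [mem_biUnion, t, mem_filter, mem_univ, true_and]
        exact ⟨α, hα, hR⟩
      have h3 := card_le_card hsub
      rw [card_sigma] at h3
      simpa using h3
    exact h1.trans ((h _).trans h2)
  obtain ⟨f, hf, hft⟩ := (Finset.all_card_le_biUnion_card_iff_exists_injective t).1 hall
  have hR : ∀ α, R α.1 (f α).1 := by
    intro α
    have h1 := hft α
    simpa [t] using h1
  refine ⟨fun i j => ((univ : Finset (Fin (a i))).filter (fun k => (f ⟨i, k⟩).1 = j)).card,
    ?_, ?_, ?_⟩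
  · intro i j hij
    obtain ⟨k, hk⟩ := card_pos.1 (Nat.pos_of_ne_zero hij)
    have h1 := (mem_filter.1 hk).2
    have h2 := hR ⟨i, k⟩
    rw [h1] at h2
    exact h2
  · intro i
    have h1 := card_eq_sum_card_fiberwise (s := (univ : Finset (Fin (a i))))
      (t := (univ : Finset B)) (f := fun k => (f ⟨i, k⟩).1) (fun _ _ => mem_univ _)
    rw [← h1]
    simp
  · intro j
    have h1 : ∑ i, ((univ : Finset (Fin (a i))).filter (fun k => (f ⟨i, k⟩).1 = j)).card
        = ((univ : Finset ((i : A) × Fin (a i))).filter (fun α => (f α).1 = j)).card := by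
      rw [← card_sigma]
      refine card_bij (fun α _ => ⟨α.1, α.2⟩) ?_ ?_ ?_
      · intro α hα
        simpa using hα
      · intro α _ β _ hαβ
        exact hαβ
      · intro α hα
        exact ⟨α, by simpa using hα, rfl⟩
    rw [h1]
    have h2 : ((univ : Finset ((i : A) × Fin (a i))).filter (fun α => (f α).1 = j)).card
        ≤ (({j} : Finset B).sigma (fun j => (univ : Finset (Fin (b j))))).card := by
      refine card_le_card_of_injOn f ?_ hf.injOn
      intro α hα
      have h3 : (f α).1 = j := by simpa using hα
      simp [h3]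
    rw [card_sigma] at h2
    simpa using h2

end Pool.Agent.MP_49bd53_lc
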