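import Pool.Agent.Lib.MP_49bd53_lc.SP.Stm

/-!
# MP_49bd53_lc : piece ic
-/

open scoped Classical

open Finset

namespace Pool.Agent.MP_49bd53_lc

private lemma ic_edges {V : Type} [Fintype V] (G L : SimpleGraph V) :
    ∑ u, ∑ v, (if G.Adj u v ∧ ¬ L.Adj u v then 1 else 0 : ℕ) =
      2 * (G.edgeSet \ L.edgeSet).ncard := by
  have h1 := (G \ L).sum_degrees_eq_twice_card_edges
  have h2 : 2 * (G.edgeSet \ L.edgeSet).ncard = ∑ v, (G \ L).degree v := by
    rw [h1]
    congr 1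
    rw [← SimpleGraph.edgeSet_sdiff, ← Set.ncard_coe_finset, SimpleGraph.coe_edgeFinset]
  rw [h2]
  refine Finset.sum_congr rfl fun u _ => ?_
  rw [← SimpleGraph.card_neighborFinset_eq_degree, SimpleGraph.neighborFinset_eq_filter,
    Finset.card_filter]
  refine Finset.sum_congr rfl fun v _ => ?_
  simp only [SimpleGraph.sdiff_adj]

private lemma ic_swap {V : Type} [Fintype V] (f : V → V → ℕ) :
    2 * ∑ u, ∑ v, f u v = ∑ u, ∑ v, (f u v + f v u) := by
  have h : ∑ u, ∑ v, f v u = ∑ u, ∑ v, f u v := Finset.sum_comm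
  simp only [Finset.sum_add_distrib]
  rw [h, two_mul]

private lemma ic_order {V : Type} [Fintype V] (b : V → ℕ) (hb : Function.Injective b) :
    2 * ∑ u, ∑ v, (if b u ≤ b v then 1 else 0 : ℕ) = Fintype.card V ^ 2 + Fintype.card V := by
  rw [ic_swap]
  have h : ∀ u v : V, ((if b u ≤ b v then 1 else 0 : ℕ) + (if b v ≤ b u then 1 else 0 : ℕ)) =
      1 + (if u = v then 1 else 0 : ℕ) := by
    intro u v
    by_cases huv : u = v
    · subst huv
      simp
    · have hne : b u ≠ b v := fun h => huv (hb h)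
      rcases lt_or_gt_of_ne hne with h | h
      · rw [if_pos h.le, if_neg (not_le.2 h), if_neg huv]
      · rw [if_neg (not_le.2 h), if_pos h.le, if_neg huv]
  simp only [h, Finset.sum_add_distrib, Finset.sum_ite_eq, Finset.mem_univ, if_true,
    Finset.sum_const, Finset.card_univ, smul_eq_mul, mul_one, sq]

private lemma ic_cost {V : Type} [Fintype V] (L : SimpleGraph V) (s : V ⊕ V → ℕ) :
    (intervalInst L).cost s =
      ∑ u, ∑ v, (if s (Sum.inl u) ≤ s (Sum.inr v) then 1 else 0 : ℕ) +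
        ∑ u, ∑ v, (if s (Sum.inr u) ≤ s (Sum.inr v) then 1 else 0 : ℕ) := by
  unfold Inst.cost Inst.completion
  rw [Fintype.sum_sum_type]
  have h1 : ∀ u, (intervalInst L).w (Sum.inl u) = 0 := fun _ => rfl
  have h2 : ∀ u, (intervalInst L).w (Sum.inr u) = 1 := fun _ => rfl
  have h3 : ∀ i, (intervalInst L).p i = 1 := fun _ => rfl
  simp only [h1, h2, h3, zero_mul, one_mul, Finset.sum_const_zero, zero_add]
  rw [Finset.sum_comm (f := fun u v => (if s (Sum.inl u) ≤ s (Sum.inr v) then 1 else 0 : ℕ)),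
    Finset.sum_comm (f := fun u v => (if s (Sum.inr u) ≤ s (Sum.inr v) then 1 else 0 : ℕ)),
    ← Finset.sum_add_distrib]
  refine Finset.sum_congr rfl fun v _ => ?_
  rw [Finset.sum_filter, Fintype.sum_sum_type]

private lemma ic_base {V : Type} [Fintype V] (L : SimpleGraph V) :
    (intervalInst L).base = Fintype.card V +
      ∑ u, ∑ v, (if u = v ∨ L.Adj u v then 1 else 0 : ℕ) := by
  unfold Inst.base
  have h1 : ∀ u, (intervalInst L).w (Sum.inl u) = 0 := fun _ => rfl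
  have h2 : ∀ u, (intervalInst L).w (Sum.inr u) = 1 := fun _ => rfl
  have h3 : ∀ i, (intervalInst L).p i = 1 := fun _ => rfl
  have h4 : ∀ u v, (intervalInst L).prec (Sum.inl u) (Sum.inr v) ↔ (u = v ∨ L.Adj u v) := by
    intro u v
    constructor
    · rintro ⟨u', v', h5, h6, h7⟩
      rw [Sum.inl.injEq] at h5
      rw [Sum.inr.injEq] at h6
      rw [h5, h6]
      exact h7
    · intro h
      exact ⟨u, v, rfl, rfl, h⟩
  have h5 : ∀ u v, ¬ (intervalInst L).prec (Sum.inr u) (Sum.inr v) := by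
    rintro u v ⟨u', v', h5, -, -⟩
    exact absurd h5 (by simp)
  congr 1
  · rw [Fintype.sum_sum_type]
    simp only [h1, h2, h3, mul_zero, mul_one, Finset.sum_const_zero, zero_add, Finset.sum_const,
      Finset.card_univ, smul_eq_mul]
  · rw [Finset.sum_filter, Fintype.sum_prod_type, Fintype.sum_sum_type]
    simp only [Fintype.sum_sum_type, h1, h2, h3, h4, h5, mul_zero, mul_one, ite_self, if_false,
      Finset.sum_const_zero, zero_add, add_zero]

theorem p_ic : S_ic := by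
  intro V _ L s hs
  obtain ⟨hinj, hprec⟩ := hs
  have ha : ∀ u v, (u = v ∨ L.Adj u v) → s (Sum.inl u) < s (Sum.inr v) :=
    fun u v h => hprec _ _ ⟨u, v, rfl, rfl, h⟩
  have hX := ic_order (fun v => s (Sum.inr v)) (fun u v h => Sum.inr_injective (hinj h))
  have hne : ∀ u v, s (Sum.inl u) ≠ s (Sum.inr v) := by
    intro u v h
    exact absurd (hinj h) (by simp)
  have hterm : ∀ u v : V, ((if s (Sum.inl u) ≤ s (Sum.inr v) then 1 else 0 : ℕ) +
      (if s (Sum.inl v) ≤ s (Sum.inr u) then 1 else 0 : ℕ)) =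
      2 * (if u = v ∨ L.Adj u v then 1 else 0 : ℕ) + (if u ≠ v ∧ ¬ L.Adj u v then 1 else 0 : ℕ) +
        (if (schedGraph s).Adj u v ∧ ¬ L.Adj u v then 1 else 0 : ℕ) := by
    intro u v
    by_cases h1 : u = v ∨ L.Adj u v
    · have h2 : v = u ∨ L.Adj v u := h1.imp Eq.symm SimpleGraph.Adj.symm
      have h3 : ¬ (u ≠ v ∧ ¬ L.Adj u v) := by
        tauto
      have h4 : ¬ ((schedGraph s).Adj u v ∧ ¬ L.Adj u v) := fun h => h3 ⟨h.1.1, h.2⟩
      rw [if_pos (ha u v h1).le, if_pos (ha v u h2).le, if_pos h1, if_neg h3, if_neg h4]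
    · have h2 : u ≠ v ∧ ¬ L.Adj u v := by tauto
      have hu := ha u u (Or.inl rfl)
      have hv := ha v v (Or.inl rfl)
      rw [if_neg h1, if_pos h2]
      by_cases h3 : s (Sum.inl u) < s (Sum.inr v)
      · by_cases h4 : s (Sum.inl v) < s (Sum.inr u)
        · rw [if_pos h3.le, if_pos h4.le, if_pos ⟨⟨h2.1, h3, h4⟩, h2.2⟩]
        · have h5 : ¬ ((schedGraph s).Adj u v ∧ ¬ L.Adj u v) := fun h => h4 h.1.2.2
          have h6 : ¬ s (Sum.inl v) ≤ s (Sum.inr u) := fun h => h4 (lt_of_le_of_ne h (hne v u))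
          rw [if_pos h3.le, if_neg h6, if_neg h5]
      · have h4 : s (Sum.inl v) < s (Sum.inr u) := by
          have := hne u v
          omega
        have h5 : ¬ ((schedGraph s).Adj u v ∧ ¬ L.Adj u v) := fun h => h3 h.1.2.1
        have h6 : ¬ s (Sum.inl u) ≤ s (Sum.inr v) := fun h => h3 (lt_of_le_of_ne h (hne u v))
        rw [if_neg h6, if_pos h4.le, if_neg h5]
  have hY : 2 * ∑ u, ∑ v, (if s (Sum.inl u) ≤ s (Sum.inr v) then 1 else 0 : ℕ) =
      2 * ∑ u, ∑ v, (if u = v ∨ L.Adj u v then 1 else 0 : ℕ) +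
      ∑ u, ∑ v, (if u ≠ v ∧ ¬ L.Adj u v then 1 else 0 : ℕ) +
      ∑ u, ∑ v, (if (schedGraph s).Adj u v ∧ ¬ L.Adj u v then 1 else 0 : ℕ) := by
    rw [ic_swap]
    simp only [hterm, Finset.sum_add_distrib, ← Finset.mul_sum]
  have hd : (univ.filter (fun q : V × V => q.1 ≠ q.2 ∧ ¬ L.Adj q.1 q.2)).card =
      ∑ u, ∑ v, (if u ≠ v ∧ ¬ L.Adj u v then 1 else 0 : ℕ) := by
    rw [Finset.card_filter, Fintype.sum_prod_type]
  rw [ic_edges] at hY
  rw [ic_cost, ic_base, hd]
  omega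

end Pool.Agent.MP_49bd53_lc
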