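import Pool.Agent.Lib.MP_49bd53_lc.SP.Stm

set_option autoImplicit false

open scoped Classical

namespace Pool.Agent.MP_49bd53_lc

noncomputable section

open Finset

/-- the condition of being a pair -/
private def il_P {V : Type} (L : SimpleGraph V) (q : (V ⊕ V) × (V ⊕ V)) : Prop :=
  q.1 ≠ q.2 ∧ ¬ (intervalInst L).prec q.1 q.2 ∧ ¬ (intervalInst L).prec q.2 q.1

/-- extension by zero -/
private def il_F {V : Type} (L : SimpleGraph V) (x : (intervalInst L).Pair → ℝ)
    (q : (V ⊕ V) × (V ⊕ V)) : ℝ := if h : il_P L q then x ⟨q, h⟩ else 0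

private theorem il_prr {V : Type} (L : SimpleGraph V) (u v : V) :
    il_P L (Sum.inr u, Sum.inr v) ↔ u ≠ v := by
  unfold il_P
  constructor
  · intro h e
    exact h.1 (by simp [e])
  · intro h
    refine ⟨by simpa using h, ?_, ?_⟩
    · rintro ⟨a, b, h1, -, -⟩
      simp at h1
    · rintro ⟨a, b, h1, -, -⟩
      simp at h1

private theorem il_plr {V : Type} (L : SimpleGraph V) (u v : V) :
    il_P L (Sum.inl u, Sum.inr v) ↔ u ≠ v ∧ ¬ L.Adj u v := by
  unfold il_P
  constructor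
  · intro h
    have h2 := h.2.1
    constructor
    · intro e
      exact h2 ⟨u, v, rfl, rfl, Or.inl e⟩
    · intro e
      exact h2 ⟨u, v, rfl, rfl, Or.inr e⟩
  · intro h
    refine ⟨by simp, ?_, ?_⟩
    · rintro ⟨a, b, h1, h2, h3⟩
      simp only [Sum.inl.injEq] at h1
      simp only [Sum.inr.injEq] at h2
      subst h1 h2
      rcases h3 with h3 | h3
      · exact h.1 h3
      · exact h.2 h3
    · rintro ⟨a, b, h1, -, -⟩
      simp at h1

private theorem il_sum {V : Type} [Fintype V] (L : SimpleGraph V)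
    (x : (intervalInst L).Pair → ℝ) :
    ∑ q, ((intervalInst L).wt q : ℝ) * x q =
      ∑ u, ∑ v, il_F L x (Sum.inr u, Sum.inr v) + ∑ u, ∑ v, il_F L x (Sum.inl u, Sum.inr v) := by
  have h1 : ∑ q, ((intervalInst L).wt q : ℝ) * x q =
      ∑ q ∈ univ.filter (il_P L), ((Sum.elim (fun _ => 0) (fun _ => 1) q.2 : ℕ) : ℝ) * il_F L x q := by
    rw [Finset.sum_subtype (univ.filter (il_P L)) (p := il_P L) (by simp)]
    refine Finset.sum_congr rfl ?_
    rintro ⟨q, hq⟩ -
    have e1 : il_F L x q = x ⟨q, hq⟩ := dif_pos (show il_P L q from hq)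
    simp only
    rw [e1]
    congr 1
    simp [Inst.wt, intervalInst]
  rw [h1, Finset.sum_filter]
  have h2 : ∀ q : (V ⊕ V) × (V ⊕ V), (if il_P L q then
      ((Sum.elim (fun _ => 0) (fun _ => 1) q.2 : ℕ) : ℝ) * il_F L x q else 0) =
      ((Sum.elim (fun _ => 0) (fun _ => 1) q.2 : ℕ) : ℝ) * il_F L x q := by
    intro q
    split_ifs with h
    · rfl
    · unfold il_F
      rw [dif_neg h, mul_zero]
  rw [Finset.sum_congr rfl (fun q _ => h2 q), Fintype.sum_prod_type, Fintype.sum_sum_type]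
  simp only [Fintype.sum_sum_type, Sum.elim_inl, Sum.elim_inr, Nat.cast_zero, zero_mul,
    Finset.sum_const_zero, zero_add, Nat.cast_one, one_mul]
  exact add_comm _ _

private theorem il_card {V : Type} [Fintype V] :
    ∑ u : V, ∑ v : V, (if u ≠ v then (1 : ℝ) else 0) =
      (Fintype.card V : ℝ) * (Fintype.card V - 1) := by
  have h : ∀ u : V, ∑ v : V, (if u ≠ v then (1 : ℝ) else 0) = (Fintype.card V : ℝ) - 1 := by
    intro u
    have h2 : ∀ v : V, (if u ≠ v then (1 : ℝ) else 0) = 1 - (if u = v then 1 else 0) := by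
      intro v
      by_cases h : u = v <;> simp [h]
    rw [Finset.sum_congr rfl (fun v _ => h2 v), Finset.sum_sub_distrib]
    simp
  rw [Finset.sum_congr rfl (fun u _ => h u)]
  rw [Finset.sum_const, Finset.card_univ, nsmul_eq_mul]

private theorem il_card2 {V : Type} [Fintype V] (L : SimpleGraph V) :
    ∑ u : V, ∑ v : V, (if u ≠ v ∧ ¬ L.Adj u v then (1 : ℝ) else 0) =
      ((univ.filter (fun q : V × V => q.1 ≠ q.2 ∧ ¬ L.Adj q.1 q.2)).card : ℝ) := by
  rw [← Fintype.sum_prod_type' (f := fun u v => (if u ≠ v ∧ ¬ L.Adj u v then (1 : ℝ) else 0))]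
  rw [← Finset.sum_filter]
  simp

private theorem il_lower {V : Type} [Fintype V] (L : SimpleGraph V)
    (x : (intervalInst L).Pair → ℝ) (hx : IsFrac (intervalInst L).conflict x) :
    ((Fintype.card V : ℝ) * (Fintype.card V - 1) +
      ((univ.filter (fun q : V × V => q.1 ≠ q.2 ∧ ¬ L.Adj q.1 q.2)).card : ℝ)) / 2 ≤
      ∑ q, ((intervalInst L).wt q : ℝ) * x q := by
  rw [il_sum, ← il_card, ← il_card2]
  have g1 : ∀ u v : V, (if u ≠ v then (1 : ℝ) else 0) ≤
      il_F L x (Sum.inr u, Sum.inr v) + il_F L x (Sum.inr v, Sum.inr u) := by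
    intro u v
    split_ifs with h
    · have p1 := (il_prr L u v).2 h
      have p2 := (il_prr L v u).2 (Ne.symm h)
      unfold il_F
      rw [dif_pos p1, dif_pos p2]
      refine hx.2 _ _ ?_
      refine ⟨?_, Or.inr rfl, Or.inr rfl⟩
      intro e
      have e2 := congrArg (fun z => z.1.1) e
      simp only [Sum.inr.injEq] at e2
      exact h e2
    · have p1 : ¬ il_P L (Sum.inr u, Sum.inr v) := by rw [il_prr]; exact h
      have p2 : ¬ il_P L (Sum.inr v, Sum.inr u) := by
        rw [il_prr]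
        intro h'
        exact h (Ne.symm h')
      unfold il_F
      rw [dif_neg p1, dif_neg p2]
      simp
  have g2 : ∀ u v : V, (if u ≠ v ∧ ¬ L.Adj u v then (1 : ℝ) else 0) ≤
      il_F L x (Sum.inl u, Sum.inr v) + il_F L x (Sum.inl v, Sum.inr u) := by
    intro u v
    split_ifs with h
    · have p1 := (il_plr L u v).2 h
      have p2 := (il_plr L v u).2 ⟨Ne.symm h.1, fun h' => h.2 h'.symm⟩
      unfold il_F
      rw [dif_pos p1, dif_pos p2]
      refine hx.2 _ _ ?_
      refine ⟨?_, Or.inl ⟨u, u, rfl, rfl, Or.inl rfl⟩, Or.inl ⟨v, v, rfl, rfl, Or.inl rfl⟩⟩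
      intro e
      have e2 := congrArg (fun z => z.1.1) e
      simp only [Sum.inl.injEq] at e2
      exact h.1 e2
    · have p1 : ¬ il_P L (Sum.inl u, Sum.inr v) := by rw [il_plr]; exact h
      have p2 : ¬ il_P L (Sum.inl v, Sum.inr u) := by
        rw [il_plr]
        intro h'
        exact h ⟨Ne.symm h'.1, fun h'' => h'.2 h''.symm⟩
      unfold il_F
      rw [dif_neg p1, dif_neg p2]
      simp
  have s1 : ∑ u : V, ∑ v : V, (if u ≠ v then (1 : ℝ) else 0) ≤
      2 * ∑ u, ∑ v, il_F L x (Sum.inr u, Sum.inr v) := by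
    have t : ∑ u : V, ∑ v : V, (il_F L x (Sum.inr u, Sum.inr v) +
        il_F L x (Sum.inr v, Sum.inr u)) = 2 * ∑ u, ∑ v, il_F L x (Sum.inr u, Sum.inr v) := by
      simp only [Finset.sum_add_distrib]
      rw [two_mul]
      congr 1
      exact Finset.sum_comm
    rw [← t]
    exact Finset.sum_le_sum (fun u _ => Finset.sum_le_sum (fun v _ => g1 u v))
  have s2 : ∑ u : V, ∑ v : V, (if u ≠ v ∧ ¬ L.Adj u v then (1 : ℝ) else 0) ≤
      2 * ∑ u, ∑ v, il_F L x (Sum.inl u, Sum.inr v) := by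
    have t : ∑ u : V, ∑ v : V, (il_F L x (Sum.inl u, Sum.inr v) +
        il_F L x (Sum.inl v, Sum.inr u)) = 2 * ∑ u, ∑ v, il_F L x (Sum.inl u, Sum.inr v) := by
      simp only [Finset.sum_add_distrib]
      rw [two_mul]
      congr 1
      exact Finset.sum_comm
    rw [← t]
    exact Finset.sum_le_sum (fun u _ => Finset.sum_le_sum (fun v _ => g2 u v))
  linarith

private theorem il_half {V : Type} [Fintype V] (L : SimpleGraph V) :
    ∑ q, ((intervalInst L).wt q : ℝ) * (1 / 2 : ℝ) =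
    ((Fintype.card V : ℝ) * (Fintype.card V - 1) +
      ((univ.filter (fun q : V × V => q.1 ≠ q.2 ∧ ¬ L.Adj q.1 q.2)).card : ℝ)) / 2 := by
  rw [il_sum L (fun _ => 1 / 2), ← il_card, ← il_card2]
  have g1 : ∀ u v : V, il_F L (fun _ => (1 / 2 : ℝ)) (Sum.inr u, Sum.inr v) =
      (if u ≠ v then (1 : ℝ) else 0) / 2 := by
    intro u v
    unfold il_F
    by_cases h : u = v
    · have p1 : ¬ il_P L (Sum.inr u, Sum.inr v) := by rw [il_prr]; simp [h]
      rw [dif_neg p1]
      simp [h]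
    · rw [dif_pos ((il_prr L u v).2 h)]
      simp [h]
  have g2 : ∀ u v : V, il_F L (fun _ => (1 / 2 : ℝ)) (Sum.inl u, Sum.inr v) =
      (if u ≠ v ∧ ¬ L.Adj u v then (1 : ℝ) else 0) / 2 := by
    intro u v
    unfold il_F
    by_cases h : u ≠ v ∧ ¬ L.Adj u v
    · rw [dif_pos ((il_plr L u v).2 h), if_pos h]
    · have p1 : ¬ il_P L (Sum.inl u, Sum.inr v) := by rw [il_plr]; exact h
      rw [dif_neg p1, if_neg h]
      simp
  simp only [g1, g2, ← Finset.sum_div]
  ring

theorem p_il : S_il := by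
  intro V _ L
  have hlow : ∀ r ∈ {r | ∃ x : (intervalInst L).Pair → ℝ, IsFrac (intervalInst L).conflict x ∧
      r = ∑ v, ((intervalInst L).wt v : ℝ) * x v},
      ((Fintype.card V : ℝ) * (Fintype.card V - 1) +
      ((univ.filter (fun q : V × V => q.1 ≠ q.2 ∧ ¬ L.Adj q.1 q.2)).card : ℝ)) / 2 ≤ r := by
    rintro r ⟨x, hx, rfl⟩
    exact il_lower L x hx
  have hmem : ((Fintype.card V : ℝ) * (Fintype.card V - 1) +
      ((univ.filter (fun q : V × V => q.1 ≠ q.2 ∧ ¬ L.Adj q.1 q.2)).card : ℝ)) / 2 ∈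
      {r | ∃ x : (intervalInst L).Pair → ℝ, IsFrac (intervalInst L).conflict x ∧
      r = ∑ v, ((intervalInst L).wt v : ℝ) * x v} := by
    refine ⟨fun _ => 1 / 2, ⟨fun v => ⟨by norm_num, by norm_num⟩, fun u v _ => by norm_num⟩, ?_⟩
    exact (il_half L).symm
  have heq : lp (intervalInst L).conflict (intervalInst L).wt =
      ((Fintype.card V : ℝ) * (Fintype.card V - 1) +
      ((univ.filter (fun q : V × V => q.1 ≠ q.2 ∧ ¬ L.Adj q.1 q.2)).card : ℝ)) / 2 := by
    unfold lp
    apply le_antisymm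
    · exact csInf_le ⟨_, hlow⟩ hmem
    · exact le_csInf ⟨_, hmem⟩ hlow
  rw [heq]
  ring

end

end Pool.Agent.MP_49bd53_lc
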