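import Pool.Agent.Lib.MP_49bd53_lc.SP.Stm

/-!
# MP_49bd53_lc : [is], schedules and interval supergraphs
-/

open scoped Classical

namespace Pool.Agent.MP_49bd53_lc

noncomputable section

theorem p_is (h_sr : S_sr) : S_is := by
  intro V _ L
  refine ⟨?_, ?_⟩
  · intro s hs
    obtain ⟨hinj, hprec⟩ := hs
    have hlt : ∀ v, s (Sum.inl v) < s (Sum.inr v) := fun v =>
      hprec _ _ ⟨v, v, rfl, rfl, Or.inl rfl⟩
    have hne : ∀ u v : V, s (Sum.inl u) ≠ s (Sum.inr v) := fun u v h => by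
      have := hinj h
      exact absurd this (by simp)
    refine ⟨?_, fun v => (s (Sum.inl v) : ℝ), fun v => (s (Sum.inr v) : ℝ), ?_, ?_⟩
    · intro u v huv
      exact ⟨huv.ne, hprec _ _ ⟨u, v, rfl, rfl, Or.inr huv⟩,
        hprec _ _ ⟨v, u, rfl, rfl, Or.inr huv.symm⟩⟩
    · intro v
      exact Nat.cast_le.2 (hlt v).le
    · intro u v huv
      have key : ∀ u v : V, ((s (Sum.inl u) : ℝ) ≤ (s (Sum.inr v) : ℝ)) ↔
          s (Sum.inl u) < s (Sum.inr v) := by
        intro u v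
        rw [Nat.cast_le]
        exact ⟨fun h => lt_of_le_of_ne h (hne u v), fun h => h.le⟩
      show (u ≠ v ∧ s (Sum.inl u) < s (Sum.inr v) ∧ s (Sum.inl v) < s (Sum.inr u)) ↔ _
      rw [key u v, key v u]
      exact ⟨fun h => h.2, fun h => ⟨huv, h⟩⟩
  · intro F hLF hF
    obtain ⟨l, r, hlr, hadj⟩ := hF
    let k : V ⊕ V → ℝ ×ₗ ℕ := Sum.elim (fun v => toLex (l v, 0)) (fun v => toLex (r v, 1))
    obtain ⟨s, hinj, hs⟩ := h_sr (V ⊕ V) (ℝ ×ₗ ℕ) k
    have h1 : ∀ u v, l u ≤ r v → s (Sum.inl u) < s (Sum.inr v) := by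
      intro u v h
      apply hs
      show toLex (l u, 0) < toLex (r v, 1)
      rw [Prod.Lex.toLex_lt_toLex]
      rcases h.lt_or_eq with h | h
      · exact Or.inl h
      · exact Or.inr ⟨h, Nat.zero_lt_one⟩
    have h2 : ∀ u v, s (Sum.inl u) < s (Sum.inr v) → l u ≤ r v := by
      intro u v h
      by_contra hc
      push Not at hc
      have h3 : s (Sum.inr v) < s (Sum.inl u) := by
        apply hs
        show toLex (r v, 1) < toLex (l u, 0)
        rw [Prod.Lex.toLex_lt_toLex]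
        exact Or.inl hc
      exact lt_asymm h h3
    refine ⟨s, ⟨hinj, ?_⟩, ?_⟩
    · rintro i j ⟨u, v, rfl, rfl, huv⟩
      apply h1
      rcases huv with rfl | huv
      · exact hlr u
      · exact ((hadj u v huv.ne).1 (hLF huv)).1
    · ext u v
      show (u ≠ v ∧ s (Sum.inl u) < s (Sum.inr v) ∧ s (Sum.inl v) < s (Sum.inr u)) ↔ F.Adj u v
      constructor
      · rintro ⟨hne, h3, h4⟩
        exact (hadj u v hne).2 ⟨h2 _ _ h3, h2 _ _ h4⟩
      · intro h
        have h3 := (hadj u v h.ne).1 h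
        exact ⟨h.ne, h1 _ _ h3.1, h1 _ _ h3.2⟩

end

end Pool.Agent.MP_49bd53_lc
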