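import Pool.Agent.Lib.MP_49bd53_lc.SP.Stm

/-!
# MP_49bd53_lc, project SP: the half-integral Konig theorem
-/

open scoped Classical

namespace Pool.Agent.MP_49bd53_lc

open Finset

/-- one half of the matching -/
private theorem kg_one (h_hl : S_hl) {V : Type} [Fintype V] (Adj : V → V → Prop) (wt : V → ℕ)
    (P Q : Finset V) (hcov : ∀ u v, Adj u v → u ∈ P ∨ v ∈ Q)
    (hmin : ∀ P' Q' : Finset V, (∀ u v, Adj u v → u ∈ P' ∨ v ∈ Q') →
      ∑ v ∈ P, wt v + ∑ v ∈ Q, wt v ≤ ∑ v ∈ P', wt v + ∑ v ∈ Q', wt v) :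
    ∃ m : V → V → ℕ, (∀ u v, m u v ≠ 0 → Adj u v ∧ u ∈ P ∧ v ∉ Q) ∧
      (∀ u, ∑ v, m u v = if u ∈ P then wt u else 0) ∧ (∀ v, ∑ u, m u v ≤ wt v) := by
  refine h_hl V V (fun u v => Adj u v ∧ u ∈ P ∧ v ∉ Q) (fun u => if u ∈ P then wt u else 0) wt ?_
  intro S
  let W : Finset V := univ.filter (fun j => ∃ i ∈ S, Adj i j ∧ i ∈ P ∧ j ∉ Q)
  let S' : Finset V := P.filter (fun i => i ∈ S)
  refine le_of_le_of_eq (b := ∑ j ∈ W, wt j) ?_
    (Finset.sum_congr (by ext j; simp only [W, Finset.mem_filter]) fun _ _ => rfl)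
  have h1 : ∑ i ∈ S, (if i ∈ P then wt i else 0) = ∑ i ∈ S', wt i := by
    rw [← Finset.sum_filter]
    refine Finset.sum_congr ?_ fun _ _ => rfl
    ext i
    simp only [S', Finset.mem_filter]
    exact and_comm
  have hc : ∀ u v, Adj u v → u ∈ P \ S' ∨ v ∈ Q ∪ W := by
    intro u v huv
    by_cases hv : v ∈ Q
    · exact Or.inr (Finset.mem_union_left _ hv)
    · have hu : u ∈ P := (hcov u v huv).resolve_right hv
      by_cases hs : u ∈ S
      · refine Or.inr (Finset.mem_union_right _ ?_)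
        exact Finset.mem_filter.2 ⟨Finset.mem_univ _, u, hs, huv, hu, hv⟩
      · refine Or.inl (Finset.mem_sdiff.2 ⟨hu, fun h => hs (Finset.mem_filter.1 h).2⟩)
  have h2 := hmin _ _ hc
  have h3 : ∑ v ∈ P \ S', wt v + ∑ v ∈ S', wt v = ∑ v ∈ P, wt v :=
    Finset.sum_sdiff (Finset.filter_subset _ _)
  have h4 : ∑ v ∈ Q ∪ W, wt v = ∑ v ∈ Q, wt v + ∑ v ∈ W, wt v := by
    refine Finset.sum_union ?_
    rw [Finset.disjoint_left]
    intro v hv hw
    obtain ⟨-, _, -, -, -, h⟩ := Finset.mem_filter.1 hw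
    exact h hv
  rw [h1]
  omega

/-- [SP kg] the half-integral Konig theorem -/
theorem p_kg (h_hl : S_hl) : S_kg := by
  intro V _ G wt
  let T : Finset (Finset V × Finset V) :=
    univ.filter fun A => ∀ u v, G.Adj u v → u ∈ A.1 ∨ v ∈ A.2
  have hT : T.Nonempty :=
    ⟨(univ, univ), Finset.mem_filter.2 ⟨Finset.mem_univ _, fun u _ _ => Or.inl (Finset.mem_univ u)⟩⟩
  obtain ⟨⟨P, Q⟩, hPQ, hmin'⟩ :=
    T.exists_min_image (fun A => ∑ v ∈ A.1, wt v + ∑ v ∈ A.2, wt v) hT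
  have hcov : ∀ u v, G.Adj u v → u ∈ P ∨ v ∈ Q := (Finset.mem_filter.1 hPQ).2
  have hmin : ∀ P' Q' : Finset V, (∀ u v, G.Adj u v → u ∈ P' ∨ v ∈ Q') →
      ∑ v ∈ P, wt v + ∑ v ∈ Q, wt v ≤ ∑ v ∈ P', wt v + ∑ v ∈ Q', wt v := by
    intro P' Q' h
    exact hmin' (P', Q') (Finset.mem_filter.2 ⟨Finset.mem_univ _, h⟩)
  obtain ⟨m₁, a1, a2, a3⟩ := kg_one h_hl G.Adj wt P Q hcov hmin
  obtain ⟨m₂, b1, b2, b3⟩ := kg_one h_hl G.Adj wt Q P
    (fun u v h => (hcov v u h.symm).symm)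
    (fun P' Q' h => by
      have h1 := hmin Q' P' (fun u v huv => (h v u huv.symm).symm)
      omega)
  have c1 : ∀ u v, m₁ u v + m₂ v u ≠ 0 → G.Adj u v := by
    intro u v h
    by_cases h1 : m₁ u v = 0
    · have h2 : m₂ v u ≠ 0 := by omega
      exact (b1 v u h2).1.symm
    · exact (a1 u v h1).1
  have hrow : ∀ u, ∑ v, (m₁ u v + m₂ v u) ≤ wt u := by
    intro u
    rw [Finset.sum_add_distrib, a2]
    by_cases hu : u ∈ P
    · have h0 : ∑ v, m₂ v u = 0 := Finset.sum_eq_zero fun v _ => by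
        by_contra h
        exact (b1 v u h).2.2 hu
      rw [if_pos hu, h0, add_zero]
    · rw [if_neg hu, zero_add]
      exact b3 u
  have hcol : ∀ v, ∑ u, (m₁ u v + m₂ v u) ≤ wt v := by
    intro v
    rw [Finset.sum_add_distrib, b2]
    by_cases hv : v ∈ Q
    · have h0 : ∑ u, m₁ u v = 0 := Finset.sum_eq_zero fun u _ => by
        by_contra h
        exact (a1 u v h).2.2 hv
      rw [if_pos hv, h0, zero_add]
    · rw [if_neg hv, add_zero]
      exact a3 v
  have htot : ∑ u, ∑ v, (m₁ u v + m₂ v u) =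
      ∑ v, ((if v ∈ P then wt v else 0) + (if v ∈ Q then wt v else 0)) := by
    have e1 : ∑ u, ∑ v, (m₁ u v + m₂ v u) = ∑ u, ∑ v, m₁ u v + ∑ v, ∑ u, m₂ v u := by
      rw [Finset.sum_comm (f := fun v u => m₂ v u), ← Finset.sum_add_distrib]
      exact Finset.sum_congr rfl fun u _ => Finset.sum_add_distrib
    rw [e1, Finset.sum_add_distrib]
    congr 1
    · exact Finset.sum_congr rfl fun u _ => a2 u
    · exact Finset.sum_congr rfl fun u _ => b2 u
  refine ⟨fun v => (if v ∈ P then 1 else 0) + (if v ∈ Q then 1 else 0),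
    fun u v => (m₁ u v + m₂ v u) + (m₁ v u + m₂ u v), ?_, ?_, ?_, ?_, ?_, ?_⟩
  · intro v
    dsimp only
    split_ifs <;> omega
  · intro u v h
    have h1 := hcov u v h
    have h2 := hcov v u h.symm
    dsimp only
    by_cases p1 : u ∈ P <;> by_cases p2 : v ∈ P <;> by_cases p3 : u ∈ Q <;>
      by_cases p4 : v ∈ Q <;> simp only [p1, p2, p3, p4, if_true, if_false] <;> first
        | omega
        | (exfalso; tauto)
  · intro u v
    dsimp only
    omega
  · intro u v h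
    dsimp only at h
    by_cases h1 : m₁ u v + m₂ v u = 0
    · have h2 : m₁ v u + m₂ u v ≠ 0 := by omega
      exact (c1 v u h2).symm
    · exact c1 u v h1
  · intro v
    dsimp only
    rw [Finset.sum_add_distrib]
    have h1 := hrow v
    have h2 := hcol v
    omega
  · have e2 : ∑ u, ∑ v, ((m₁ u v + m₂ v u) + (m₁ v u + m₂ u v)) =
        2 * ∑ u, ∑ v, (m₁ u v + m₂ v u) := by
      have e3 : ∑ u, ∑ v, ((m₁ u v + m₂ v u) + (m₁ v u + m₂ u v)) =
          ∑ u, ∑ v, (m₁ u v + m₂ v u) + ∑ u, ∑ v, (m₁ v u + m₂ u v) := by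
        rw [← Finset.sum_add_distrib]
        exact Finset.sum_congr rfl fun u _ => Finset.sum_add_distrib
      rw [e3, Finset.sum_comm (f := fun u v => m₁ v u + m₂ u v)]
      omega
    rw [e2, htot]
    congr 1
    refine Finset.sum_congr rfl fun v _ => ?_
    dsimp only
    split_ifs <;> omega

end Pool.Agent.MP_49bd53_lc
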