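import Pool.Agent.Lib.MP_49bd53_lc.SP.Stm

/-!
# MP_49bd53_lc : the linear programme of the truncated weights
-/

open scoped Classical

namespace Pool.Agent.MP_49bd53_lc

theorem p_lt (h_du : S_du) (h_wd : S_wd) : S_lt := by
  intro V _ G wt y hy K
  obtain ⟨⟨x, hx, hlp⟩, -⟩ := h_du V G wt
  -- an edge or zero
  have hsupp : ∀ u v, (y u v : ℝ) = 0 ∨ G.Adj u v := by
    intro u v
    by_cases h : y u v = 0
    · left
      rw [h]
      simp
    · right
      exact hy.supp u v h
  have hload : ∀ v, (∑ u, (y v u : ℝ)) ≤ 2 * (wt v : ℝ) := by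
    intro v
    have h := hy.load v
    exact_mod_cast h
  have hopt : (∑ u, ∑ v, (y u v : ℝ)) = 4 * lp G wt := by
    have h := hy.opt
    push_cast at h
    exact h
  -- weak duality for the original weights
  have hw := h_wd V (fun v => (wt v : ℝ)) (fun u v => (y u v : ℝ)) x
    (fun u v => by simp only [hy.symm u v])
  have hA : ∀ v ∈ (Finset.univ : Finset V),
      (0 : ℝ) ≤ (2 * (wt v : ℝ) - ∑ u, (y v u : ℝ)) * x v := by
    intro v _
    have h1 := hload v
    exact mul_nonneg (by linarith) (hx.1 v).1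
  have hB' : ∀ u v, (0 : ℝ) ≤ (y u v : ℝ) * (x u + x v - 1) := by
    intro u v
    rcases hsupp u v with h | h
    · rw [h]
      simp
    · have h1 := hx.2 u v h
      exact mul_nonneg (Nat.cast_nonneg _) (by linarith)
  have hB : ∀ u ∈ (Finset.univ : Finset V),
      (0 : ℝ) ≤ ∑ v, (y u v : ℝ) * (x u + x v - 1) :=
    fun u _ => Finset.sum_nonneg (fun v _ => hB' u v)
  have hA0 := Finset.sum_nonneg hA
  have hB0 := Finset.sum_nonneg hB
  have hAz : ∑ v, (2 * (wt v : ℝ) - ∑ u, (y v u : ℝ)) * x v = 0 := by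
    rw [← hlp] at hw
    linarith
  have hBz : ∑ u, ∑ v, (y u v : ℝ) * (x u + x v - 1) = 0 := by
    rw [← hlp] at hw
    linarith
  have hA1 : ∀ v, (2 * (wt v : ℝ) - ∑ u, (y v u : ℝ)) * x v = 0 := fun v =>
    (Finset.sum_eq_zero_iff_of_nonneg hA).1 hAz v (Finset.mem_univ v)
  have hB1 : ∀ u v, (y u v : ℝ) * (x u + x v - 1) = 0 := by
    intro u v
    have h1 := (Finset.sum_eq_zero_iff_of_nonneg hB).1 hBz u (Finset.mem_univ u)
    exact (Finset.sum_eq_zero_iff_of_nonneg (fun v _ => hB' u v)).1 h1 v (Finset.mem_univ v)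
  -- the truncated slack
  obtain ⟨t, ht⟩ : ∃ t : V → ℕ, t = fun v => min (2 * wt v - ∑ u, y v u) (K + 1) := ⟨_, rfl⟩
  obtain ⟨y', hy'⟩ : ∃ y' : V → V → ℕ, y' = fun u v => min (y u v) (K + 1) := ⟨_, rfl⟩
  have htr : ∀ v, trunc wt y K v = ∑ u, y' v u + t v := by
    intro v
    rw [ht, hy']
    rfl
  have ht0 : ∀ v, (t v : ℝ) * x v = 0 := by
    intro v
    by_cases h : t v = 0
    · rw [h]
      simp
    · have h1 : 2 * wt v - ∑ u, y v u ≠ 0 := by
        intro h2
        apply h
        rw [ht]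
        simp only [h2]
        simp
      have h3 : (2 * (wt v : ℝ) - ∑ u, (y v u : ℝ)) ≠ 0 := by
        intro h4
        apply h1
        have h5 : (2 * (wt v : ℝ)) = ∑ u, (y v u : ℝ) := by linarith
        have h6 : 2 * wt v = ∑ u, y v u := by exact_mod_cast h5
        omega
      have h7 : x v = 0 := by
        rcases mul_eq_zero.1 (hA1 v) with h8 | h8
        · exact absurd h8 h3
        · exact h8
      rw [h7, mul_zero]
  have hy0 : ∀ u v, (y' u v : ℝ) * (x u + x v - 1) = 0 := by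
    intro u v
    by_cases h : y' u v = 0
    · rw [h]
      simp
    · have h1 : y u v ≠ 0 := by
        intro h2
        apply h
        rw [hy']
        simp only [h2]
        simp
      have h3 : (y u v : ℝ) ≠ 0 := by exact_mod_cast h1
      rcases mul_eq_zero.1 (hB1 u v) with h8 | h8
      · exact absurd h8 h3
      · rw [h8, mul_zero]
  have hysymm : ∀ u v, y' u v = y' v u := by
    intro u v
    rw [hy']
    simp only [hy.symm u v]
  have hysupp : ∀ u v, (y' u v : ℝ) = 0 ∨ G.Adj u v := by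
    intro u v
    by_cases h : y u v = 0
    · left
      rw [hy']
      simp only [h]
      simp
    · right
      exact hy.supp u v h
  -- weak duality for the truncated weights
  have hkey : ∀ x' : V → ℝ, 4 * ∑ v, (trunc wt y K v : ℝ) * x' v =
      2 * (∑ u, ∑ v, (y' u v : ℝ)) + 4 * ∑ v, (t v : ℝ) * x' v +
        2 * ∑ u, ∑ v, (y' u v : ℝ) * (x' u + x' v - 1) := by
    intro x'
    have h := h_wd V (fun v => (trunc wt y K v : ℝ)) (fun u v => 2 * (y' u v : ℝ)) x'
      (fun u v => by simp only [hysymm u v])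
    have h1 : ∀ v, (2 * (trunc wt y K v : ℝ) - 2 * ∑ u, (y' v u : ℝ)) * x' v =
        2 * ((t v : ℝ) * x' v) := by
      intro v
      rw [htr v]
      push_cast
      ring
    have h2 : ∀ u, ∑ v, 2 * (y' u v : ℝ) * (x' u + x' v - 1) =
        2 * ∑ v, (y' u v : ℝ) * (x' u + x' v - 1) := by
      intro u
      rw [Finset.mul_sum]
      exact Finset.sum_congr rfl (fun v _ => by ring)
    have h3 : ∀ u, ∑ v, 2 * (y' u v : ℝ) = 2 * ∑ v, (y' u v : ℝ) := by
      intro u
      rw [Finset.mul_sum]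
    simp only [h2, h3, h1, ← Finset.mul_sum] at h
    linarith
  have hval : (((∑ u, ∑ v, min (y u v) (K + 1) : ℕ) : ℝ)) = ∑ u, ∑ v, (y' u v : ℝ) := by
    rw [hy']
    push_cast
    rfl
  rw [hval]
  have hleast : IsLeast {r : ℝ | ∃ x : V → ℝ, IsFrac G x ∧
      r = ∑ v, (trunc wt y K v : ℝ) * x v} ((∑ u, ∑ v, (y' u v : ℝ)) / 2) := by
    constructor
    · refine ⟨x, hx, ?_⟩
      have h := hkey x
      have h1 : ∑ v, (t v : ℝ) * x v = 0 := Finset.sum_eq_zero (fun v _ => ht0 v)
      have h2 : ∑ u, ∑ v, (y' u v : ℝ) * (x u + x v - 1) = 0 :=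
        Finset.sum_eq_zero (fun u _ => Finset.sum_eq_zero (fun v _ => hy0 u v))
      rw [h1, h2] at h
      linarith
    · rintro r ⟨x', hx', rfl⟩
      have h := hkey x'
      have h1 : 0 ≤ ∑ v, (t v : ℝ) * x' v :=
        Finset.sum_nonneg (fun v _ => mul_nonneg (Nat.cast_nonneg _) (hx'.1 v).1)
      have h2 : 0 ≤ ∑ u, ∑ v, (y' u v : ℝ) * (x' u + x' v - 1) := by
        refine Finset.sum_nonneg (fun u _ => Finset.sum_nonneg (fun v _ => ?_))
        rcases hysupp u v with h3 | h3
        · rw [h3]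
          simp
        · have h4 := hx'.2 u v h3
          exact mul_nonneg (Nat.cast_nonneg _) (by linarith)
      linarith
  exact hleast.csInf_eq

end Pool.Agent.MP_49bd53_lc
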