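import Pool.Agent.Lib.MP_49bd53_lc.SP.Stm

/-!
# MP_49bd53_lc, piece mn: truncation and minima
-/

open scoped Classical

namespace Pool.Agent.MP_49bd53_lc

open Finset

private theorem mn_two {V : Type} (f : V → V → ℕ) (C : Finset V) (u v : V)
    (hu : u ∈ C) (hv : v ∈ C) (huv : u ≠ v) :
    f u v + f v u ≤ ∑ a ∈ C, ∑ b ∈ C, f a b := by
  have h1 : ({u, v} : Finset V) ⊆ C := by
    intro a ha
    rw [Finset.mem_insert, Finset.mem_singleton] at ha
    rcases ha with rfl | rfl
    · exact hu
    · exact hv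
  calc f u v + f v u ≤ ∑ b ∈ C, f u b + ∑ b ∈ C, f v b :=
        Nat.add_le_add (Finset.single_le_sum (f := fun b => f u b) (fun _ _ => Nat.zero_le _) hv)
          (Finset.single_le_sum (f := fun b => f v b) (fun _ _ => Nat.zero_le _) hu)
    _ = ∑ a ∈ ({u, v} : Finset V), ∑ b ∈ C, f a b := by
        rw [Finset.sum_pair huv]
    _ ≤ ∑ a ∈ C, ∑ b ∈ C, f a b :=
        Finset.sum_le_sum_of_subset h1

theorem p_mn : S_mn := by
  intro V _ z t C K hsym hdiag
  by_cases h1 : ∀ u ∈ C, ∀ v ∈ C, z u v ≤ K + 1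
  · by_cases h2 : ∀ u ∈ C, t u ≤ K + 1
    · have e1 : ∑ u ∈ C, ∑ v ∈ C, min (z u v) (K + 1) = ∑ u ∈ C, ∑ v ∈ C, z u v := by
        apply Finset.sum_congr rfl
        intro u hu
        apply Finset.sum_congr rfl
        intro v hv
        exact min_eq_left (h1 u hu v hv)
      have e2 : ∑ u ∈ C, min (t u) (K + 1) = ∑ u ∈ C, t u := by
        apply Finset.sum_congr rfl
        intro u hu
        exact min_eq_left (h2 u hu)
      rw [e1, e2]
    · push Not at h2
      obtain ⟨u, hu, htu⟩ := h2
      have a1 : t u ≤ ∑ a ∈ C, t a :=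
        Finset.single_le_sum (f := t) (fun _ _ => Nat.zero_le _) hu
      have a2 : min (t u) (K + 1) ≤ ∑ a ∈ C, min (t a) (K + 1) :=
        Finset.single_le_sum (f := fun a => min (t a) (K + 1)) (fun _ _ => Nat.zero_le _) hu
      rw [min_eq_right htu.le] at a2
      rw [min_eq_right (by omega), min_eq_right (by omega)]
  · push Not at h1
    obtain ⟨u, hu, v, hv, huv⟩ := h1
    have hne : u ≠ v := by
      rintro rfl
      rw [hdiag] at huv
      omega
    have a1 := mn_two z C u v hu hv hne
    have a2 := mn_two (fun a b => min (z a b) (K + 1)) C u v hu hv hne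
    simp only [hsym v u] at a1 a2
    rw [min_eq_right huv.le] at a2
    rw [min_eq_right (by omega), min_eq_right (by omega)]

end Pool.Agent.MP_49bd53_lc
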