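import Pool.Agent.Lib.MP_49bd53_lc.SP.Stm

/-!
# MP_49bd53_lc : piece qa (averaging step of QuickSort on a tournament)
-/

open scoped Classical

namespace Pool.Agent.MP_49bd53_lc

open Finset

theorem p_qa : S_qa := by
  intro N T hT p Y S
  have hirr : ∀ i, ¬ T i i := hT.1
  have htour : ∀ i j, i ≠ j → (T i j ↔ ¬ T j i) := hT.2
  have hasym : ∀ i j, T i j → ¬ T j i := by
    intro i j hij hji
    by_cases h : i = j
    · subst h
      exact hirr i hij
    · exact (htour i j h).1 hij hji
  -- indicator form of the two sides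
  let Lf : N → N → ℕ := fun d c => if (∀ a ∈ S, T a c) then p d * p c else 0
  let Rf : N → N → ℕ := fun d c =>
    if T d c then (if ∀ a ∈ S, T d a → T a c then p d * p c else 0)
    else if c = d then (if ∀ a ∈ S, T a d then p d * p c else 0)
    else (if (∀ a ∈ S, T a d) ∧ (∀ a ∈ S, T a c) then p d * p c else 0)
  have hL : (∑ d ∈ Y, p d) * after T p Y S = ∑ d ∈ Y, ∑ c ∈ Y, Lf d c := by
    unfold after
    rw [Finset.sum_filter, Finset.sum_mul_sum]
    refine Finset.sum_congr rfl fun d _ => Finset.sum_congr rfl fun c _ => ?_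
    simp only [Lf]
    split_ifs <;> simp
  have hR : ∀ d ∈ Y, p d * pivot T p Y S d = ∑ c ∈ Y, Rf d c := by
    intro d hd
    have e1 : after T p (Y.filter (fun c => T d c)) (S.filter (fun a => T d a)) =
        ∑ c ∈ Y, if T d c then (if ∀ a ∈ S, T d a → T a c then p c else 0) else 0 := by
      unfold after
      rw [Finset.sum_filter, Finset.sum_filter]
      refine Finset.sum_congr rfl fun c _ => ?_
      simp only [Finset.mem_filter, and_imp]
    have e2 : after T p (Y.filter (fun c => T c d)) S =
        ∑ c ∈ Y, if T c d then (if ∀ a ∈ S, T a c then p c else 0) else 0 := by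
      unfold after
      rw [Finset.sum_filter, Finset.sum_filter]
    have e3 : p d = ∑ c ∈ Y, if c = d then p c else 0 := by
      rw [Finset.sum_ite_eq' Y d p, if_pos hd]
    unfold pivot
    rw [e1, e2]
    by_cases h : ∀ a ∈ S, T a d
    · rw [if_pos h]
      have e4 : p d + (∑ c ∈ Y, if T c d then (if ∀ a ∈ S, T a c then p c else 0) else 0) =
          ∑ c ∈ Y, ((if c = d then p c else 0) +
            if T c d then (if ∀ a ∈ S, T a c then p c else 0) else 0) := by
        rw [Finset.sum_add_distrib, ← e3]
      rw [e4, ← Finset.sum_add_distrib, Finset.mul_sum]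
      refine Finset.sum_congr rfl fun c _ => ?_
      simp only [Rf]
      by_cases h1 : T d c
      · have h2 : ¬ T c d := hasym d c h1
        have h3 : c ≠ d := by
          rintro rfl
          exact hirr c h1
        rw [if_pos h1, if_pos h1, if_neg h2, if_neg h3]
        split_ifs <;> simp
      · rw [if_neg h1, if_neg h1]
        by_cases h3 : c = d
        · subst h3
          rw [if_pos rfl, if_neg h1, if_pos rfl, if_pos h]
          simp
        · have h2 : T c d := by
            by_contra h2
            exact h1 ((htour d c (Ne.symm h3)).2 h2)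
          rw [if_neg h3, if_neg h3, if_pos h2]
          by_cases h4 : ∀ a ∈ S, T a c
          · rw [if_pos h4, if_pos ⟨h, h4⟩]
            simp
          · rw [if_neg h4, if_neg (fun hh => h4 hh.2)]
            simp
    · rw [if_neg h, add_zero, Finset.mul_sum]
      refine Finset.sum_congr rfl fun c _ => ?_
      simp only [Rf]
      by_cases h1 : T d c
      · rw [if_pos h1, if_pos h1]
        split_ifs <;> simp
      · have h6 : ¬ ((∀ a ∈ S, T a d) ∧ ∀ a ∈ S, T a c) := fun hh => h hh.1
        simp only [if_neg h1, if_neg h, if_neg h6, mul_zero, ite_self]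
  have key : ∀ d c, Lf d c + Lf c d ≤ Rf d c + Rf c d := by
    intro d c
    simp only [Lf, Rf, mul_comm (p c) (p d)]
    by_cases hdc : c = d
    · subst hdc
      simp only [if_neg (hirr c), if_true]
      exact le_refl _
    have hdc' : ¬ d = c := fun h => hdc h.symm
    by_cases h1 : T d c
    · have h2 : ¬ T c d := hasym d c h1
      simp only [if_pos h1, if_neg h2, if_neg hdc, if_neg hdc']
      by_cases hc : ∀ a ∈ S, T a c
      · have h5 : ∀ a ∈ S, T d a → T a c := fun a ha _ => hc a ha
        by_cases hd : ∀ a ∈ S, T a d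
        · simp only [if_pos hc, if_pos h5, if_pos hd, if_pos (And.intro hc hd)]
          exact le_refl _
        · simp only [if_pos hc, if_pos h5, if_neg hd]
          exact Nat.le_add_right _ _
      · by_cases hd : ∀ a ∈ S, T a d
        · have h5 : ∀ a ∈ S, T d a → T a c := fun a ha hda => absurd (hd a ha) (hasym d a hda)
          simp only [if_neg hc, if_pos h5, if_pos hd, zero_add]
          exact Nat.le_add_right _ _
        · simp only [if_neg hc, if_neg hd]
          exact Nat.zero_le _
    · have h2 : T c d := by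
        by_contra h2
        exact h1 ((htour d c hdc').2 h2)
      simp only [if_neg h1, if_pos h2, if_neg hdc]
      by_cases hd : ∀ a ∈ S, T a d
      · have h5 : ∀ a ∈ S, T c a → T a d := fun a ha _ => hd a ha
        by_cases hc : ∀ a ∈ S, T a c
        · simp only [if_pos hc, if_pos h5, if_pos hd, if_pos (And.intro hd hc)]
          exact le_refl _
        · simp only [if_neg hc, if_pos h5, if_pos hd, zero_add]
          exact Nat.le_add_left _ _
      · by_cases hc : ∀ a ∈ S, T a c
        · have h5 : ∀ a ∈ S, T c a → T a d := fun a ha hca => absurd (hc a ha) (hasym c a hca)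
          simp only [if_pos hc, if_pos h5, if_neg hd, add_zero]
          exact Nat.le_add_left _ _
        · simp only [if_neg hc, if_neg hd]
          exact Nat.zero_le _
  have sL : ∑ d ∈ Y, ∑ c ∈ Y, Lf c d = ∑ d ∈ Y, ∑ c ∈ Y, Lf d c := Finset.sum_comm
  have sR : ∑ d ∈ Y, ∑ c ∈ Y, Rf c d = ∑ d ∈ Y, ∑ c ∈ Y, Rf d c := Finset.sum_comm
  have h2 : ∑ d ∈ Y, ∑ c ∈ Y, (Lf d c + Lf c d) ≤ ∑ d ∈ Y, ∑ c ∈ Y, (Rf d c + Rf c d) :=
    Finset.sum_le_sum fun d _ => Finset.sum_le_sum fun c _ => key d c
  simp only [Finset.sum_add_distrib] at h2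
  rw [sL, sR] at h2
  rw [hL, Finset.sum_congr rfl hR]
  omega

end Pool.Agent.MP_49bd53_lc
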