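import Pool.Agent.Lib.MP_49bd53_lc.SP.Stm

/-!
# MP_49bd53_lc, piece qs: QuickSort
-/

open scoped Classical

set_option autoImplicit false

namespace Pool.Agent.MP_49bd53_lc

open Finset

private noncomputable def qs_F {N : Type} (R : N → N → Prop) (p : N → ℕ) (S : Finset N)
    (c : N) : ℕ := if (∀ a ∈ S, R a c) then p c else 0

private theorem qs_F1 {N : Type} {R : N → N → Prop} {p : N → ℕ} {S : Finset N} {c : N}
    (h : ∀ a ∈ S, R a c) : qs_F R p S c = p c := by
  unfold qs_F
  rw [if_pos h]

private theorem qs_F0 {N : Type} {R : N → N → Prop} {p : N → ℕ} {S : Finset N} {c : N}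
    (h : ¬ ∀ a ∈ S, R a c) : qs_F R p S c = 0 := by
  unfold qs_F
  rw [if_neg h]

private theorem qs_after {N : Type} (R : N → N → Prop) (p : N → ℕ) (Y S : Finset N) :
    after R p Y S = ∑ c ∈ Y, qs_F R p S c := by
  unfold after
  rw [Finset.sum_filter]
  rfl

/-- splitting at the pivot -/
private theorem qs_split {N : Type} {T : N → N → Prop} (hT : IsTour T) {Y : Finset N} {d : N}
    (hd : d ∈ Y) (f : N → ℕ) : ∑ c ∈ Y, f c =
      ∑ c ∈ Y.filter (fun c => T d c), f c + (f d + ∑ c ∈ Y.filter (fun c => T c d), f c) := by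
  have h1 := Finset.sum_filter_add_sum_filter_not Y (fun c => T c d) f
  have h2 : Y.filter (fun c => ¬ T c d) = insert d (Y.filter (fun c => T d c)) := by
    ext c
    simp only [Finset.mem_filter, Finset.mem_insert]
    constructor
    · rintro ⟨hc, hn⟩
      by_cases e : c = d
      · exact Or.inl e
      · refine Or.inr ⟨hc, ?_⟩
        exact (hT.2 d c (Ne.symm e)).2 hn
    · rintro (rfl | ⟨hc, h⟩)
      · exact ⟨hd, hT.1 c⟩
      · refine ⟨hc, fun h' => ?_⟩
        by_cases e : c = d
        · subst e
          exact hT.1 c h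
        · exact (hT.2 c d e).1 h' h
  rw [h2, Finset.sum_insert (by
    rw [Finset.mem_filter]
    exact fun h => hT.1 d h.2)] at h1
  omega

private theorem qs_pivot {N B : Type} [Fintype B] {T : N → N → Prop}
    (hqa : ∀ (p : N → ℕ) (Y S : Finset N),
      (∑ d ∈ Y, p d) * after T p Y S ≤ ∑ d ∈ Y, p d * pivot T p Y S d)
    (p : N → ℕ) (hp : ∀ i, 0 < p i) (Y : Finset N) (hY : Y.Nonempty) (w : B → ℕ)
    (S : B → Finset N) :
    ∃ d ∈ Y, ∑ b, w b * after T p Y (S b) ≤ ∑ b, w b * pivot T p Y (S b) d := by
  by_contra hne
  push Not at hne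
  have h1 : ∑ d ∈ Y, p d * ∑ b, w b * pivot T p Y (S b) d <
      ∑ d ∈ Y, p d * ∑ b, w b * after T p Y (S b) := by
    apply Finset.sum_lt_sum_of_nonempty hY
    intro d hd
    exact Nat.mul_lt_mul_of_pos_left (hne d hd) (hp d)
  have h2 : ∑ d ∈ Y, p d * ∑ b, w b * after T p Y (S b) =
      ∑ b, w b * ((∑ d ∈ Y, p d) * after T p Y (S b)) := by
    rw [← Finset.sum_mul, Finset.mul_sum]
    apply Finset.sum_congr rfl
    intro b _
    ring
  have h3 : ∑ b, w b * ((∑ d ∈ Y, p d) * after T p Y (S b)) ≤
      ∑ b, w b * ∑ d ∈ Y, p d * pivot T p Y (S b) d := by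
    apply Finset.sum_le_sum
    intro b _
    exact Nat.mul_le_mul_left _ (hqa p Y (S b))
  have h4 : ∑ b, w b * ∑ d ∈ Y, p d * pivot T p Y (S b) d =
      ∑ d ∈ Y, p d * ∑ b, w b * pivot T p Y (S b) d := by
    simp only [Finset.mul_sum]
    rw [Finset.sum_comm]
    apply Finset.sum_congr rfl
    intro d _
    apply Finset.sum_congr rfl
    intro b _
    ring
  rw [h2] at h1
  rw [h4] at h3
  omega

private theorem qs_main {N B : Type} [Fintype B] {T : N → N → Prop} (hT : IsTour T)
    (hqa : ∀ (p : N → ℕ) (Y S : Finset N),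
      (∑ d ∈ Y, p d) * after T p Y S ≤ ∑ d ∈ Y, p d * pivot T p Y S d)
    (p : N → ℕ) (hp : ∀ i, 0 < p i) (n : ℕ) : ∀ (Y : Finset N), Y.card = n → ∀ (w : B → ℕ)
    (S : B → Finset N), (∀ b, S b ⊆ Y) → ∃ s : N → ℕ, Set.InjOn s (Y : Set N) ∧
      ∑ b, w b * after T p Y (S b) ≤ ∑ b, w b * after (fun a c => s a < s c) p Y (S b) := by
  induction n using Nat.strong_induction_on with
  | _ n ih =>
    intro Y hYn w S hS
    rcases Y.eq_empty_or_nonempty with rfl | hY
    · refine ⟨fun _ => 0, ?_, ?_⟩
      · intro x hx
        exact absurd hx (by simp)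
      · apply le_of_eq
        apply Finset.sum_congr rfl
        intro b _
        rw [qs_after, qs_after, Finset.sum_empty, Finset.sum_empty]
    obtain ⟨d, hd, hle⟩ := qs_pivot hqa p hp Y hY w S
    have hd1 : d ∉ Y.filter (fun c => T c d) := by
      rw [Finset.mem_filter]
      exact fun h => hT.1 d h.2
    have hd2 : d ∉ Y.filter (fun c => T d c) := by
      rw [Finset.mem_filter]
      exact fun h => hT.1 d h.2
    have hc1 : (Y.filter (fun c => T c d)).card < n := by
      rw [← hYn]
      exact Finset.card_lt_card
        ⟨Finset.filter_subset _ _, fun h => hd1 (h hd)⟩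
    have hc2 : (Y.filter (fun c => T d c)).card < n := by
      rw [← hYn]
      exact Finset.card_lt_card
        ⟨Finset.filter_subset _ _, fun h => hd2 (h hd)⟩
    obtain ⟨s1, hi1, hs1⟩ := ih _ hc1 _ rfl
      (fun b => if (∀ a ∈ S b, T a d) then w b else 0) (fun b => (S b).filter (fun a => T a d))
      (fun b => Finset.filter_subset_filter _ (hS b))
    obtain ⟨s2, hi2, hs2⟩ := ih _ hc2 _ rfl w (fun b => (S b).filter (fun a => T d a))
      (fun b => Finset.filter_subset_filter _ (hS b))
    obtain ⟨M, hM⟩ : ∃ M, ∀ c ∈ Y, T c d → s1 c < M := by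
      refine ⟨∑ c ∈ Y, s1 c + 1, fun c hc _ => ?_⟩
      have := Finset.single_le_sum (f := s1) (fun _ _ => Nat.zero_le _) hc
      omega
    have hnd : ∀ c, T c d → ¬ T d c := by
      intro c h h'
      by_cases e : c = d
      · subst e
        exact hT.1 c h
      · exact (hT.2 c d e).1 h h'
    obtain ⟨s, hs⟩ : ∃ s : N → ℕ, ∀ c,
        s c = if T c d then s1 c else if T d c then M + 1 + s2 c else M := ⟨_, fun _ => rfl⟩
    have hsl : ∀ c, T c d → s c = s1 c := by
      intro c h
      rw [hs, if_pos h]
    have hsr : ∀ c, T d c → s c = M + 1 + s2 c := by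
      intro c h
      rw [hs, if_neg (fun h' => hnd c h' h), if_pos h]
    have hsd : s d = M := by
      rw [hs, if_neg (hT.1 d), if_neg (hT.1 d)]
    have htri : ∀ c, T c d ∨ T d c ∨ c = d := by
      intro c
      by_cases e : c = d
      · exact Or.inr (Or.inr e)
      · by_cases h : T c d
        · exact Or.inl h
        · exact Or.inr (Or.inl ((hT.2 d c (Ne.symm e)).2 h))
    refine ⟨s, ?_, ?_⟩
    · intro x hx y hy e
      have hx' : x ∈ Y := hx
      have hy' : y ∈ Y := hy
      rcases htri x with h | h | h
      · rcases htri y with h' | h' | h'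
        · rw [hsl x h, hsl y h'] at e
          exact hi1 (Finset.mem_coe.2 (Finset.mem_filter.2 ⟨hx', h⟩))
            (Finset.mem_coe.2 (Finset.mem_filter.2 ⟨hy', h'⟩)) e
        · rw [hsl x h, hsr y h'] at e
          have := hM x hx' h
          omega
        · rw [h', hsl x h, hsd] at e
          have := hM x hx' h
          omega
      · rcases htri y with h' | h' | h'
        · rw [hsr x h, hsl y h'] at e
          have := hM y hy' h'
          omega
        · rw [hsr x h, hsr y h'] at e
          exact hi2 (Finset.mem_coe.2 (Finset.mem_filter.2 ⟨hx', h⟩))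
            (Finset.mem_coe.2 (Finset.mem_filter.2 ⟨hy', h'⟩)) (by omega)
        · rw [h', hsr x h, hsd] at e
          omega
      · rcases htri y with h' | h' | h'
        · rw [h, hsl y h', hsd] at e
          have := hM y hy' h'
          omega
        · rw [h, hsr y h', hsd] at e
          omega
        · rw [h, h']
    · refine hle.trans ?_
      have h5 : ∀ b, w b * pivot T p Y (S b) d = w b *
          after T p (Y.filter (fun c => T d c)) ((S b).filter (fun a => T d a)) +
          ((if (∀ a ∈ S b, T a d) then w b else 0) * p d +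
          (if (∀ a ∈ S b, T a d) then w b else 0) *
            after T p (Y.filter (fun c => T c d)) ((S b).filter (fun a => T a d))) := by
        intro b
        unfold pivot
        by_cases h : ∀ a ∈ S b, T a d
        · rw [if_pos h, if_pos h, Finset.filter_true_of_mem h]
          ring
        · rw [if_neg h, if_neg h]
          ring
      simp only [h5]
      rw [Finset.sum_add_distrib, Finset.sum_add_distrib]
      refine (Nat.add_le_add hs2 (Nat.add_le_add_left hs1 _)).trans ?_
      rw [← Finset.sum_add_distrib, ← Finset.sum_add_distrib]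
      apply Finset.sum_le_sum
      intro b _
      rw [qs_after _ p Y, qs_split hT hd, qs_after, qs_after]
      have hA : ∑ c ∈ Y.filter (fun c => T d c),
          qs_F (fun a c => s2 a < s2 c) p ((S b).filter (fun a => T d a)) c ≤
          ∑ c ∈ Y.filter (fun c => T d c), qs_F (fun a c => s a < s c) p (S b) c := by
        apply Finset.sum_le_sum
        intro c hc
        rw [Finset.mem_filter] at hc
        by_cases h : ∀ a ∈ (S b).filter (fun a => T d a), s2 a < s2 c
        · have h' : ∀ a ∈ S b, s a < s c := by
            intro a ha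
            rw [hsr c hc.2]
            rcases htri a with h6 | h6 | h6
            · rw [hsl a h6]
              have := hM a (hS b ha) h6
              omega
            · rw [hsr a h6]
              have := h a (Finset.mem_filter.2 ⟨ha, h6⟩)
              omega
            · rw [h6, hsd]
              omega
          rw [qs_F1 h, qs_F1 h']
        · rw [qs_F0 h]
          exact Nat.zero_le _
      by_cases h : ∀ a ∈ S b, T a d
      · rw [if_pos h]
        have hB : qs_F (fun a c => s a < s c) p (S b) d = p d := by
          apply qs_F1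
          intro a ha
          rw [hsl a (h a ha), hsd]
          exact hM a (hS b ha) (h a ha)
        have hC : ∑ c ∈ Y.filter (fun c => T c d),
            qs_F (fun a c => s1 a < s1 c) p ((S b).filter (fun a => T a d)) c ≤
            ∑ c ∈ Y.filter (fun c => T c d), qs_F (fun a c => s a < s c) p (S b) c := by
          apply Finset.sum_le_sum
          intro c hc
          rw [Finset.mem_filter] at hc
          rw [Finset.filter_true_of_mem h]
          by_cases h7 : ∀ a ∈ S b, s1 a < s1 c
          · have h' : ∀ a ∈ S b, s a < s c := by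
              intro a ha
              rw [hsl c hc.2, hsl a (h a ha)]
              exact h7 a ha
            rw [qs_F1 h7, qs_F1 h']
          · rw [qs_F0 h7]
            exact Nat.zero_le _
        rw [hB, mul_add, mul_add]
        exact Nat.add_le_add (Nat.mul_le_mul_left _ hA)
          (Nat.add_le_add_left (Nat.mul_le_mul_left _ hC) _)
      · rw [if_neg h, zero_mul, zero_mul, add_zero, add_zero]
        exact Nat.mul_le_mul_left _ (hA.trans (Nat.le_add_right _ _))

theorem p_qs (h_qa : S_qa) : S_qs := by
  intro N _ T hT p hp B _ w S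
  obtain ⟨s, hs, hle⟩ := qs_main hT (h_qa N T hT) p hp _ univ rfl w S
    (fun b => Finset.subset_univ _)
  exact ⟨s, fun x y e => hs (by simp) (by simp) e, hle⟩

end Pool.Agent.MP_49bd53_lc
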