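import Pool.Agent.Lib.MP_49bd53_lc.SP.Stm

/-!
# MP_49bd53_lc : every schedule gives a vertex cover of the same cost
-/

open scoped Classical

namespace Pool.Agent.MP_49bd53_lc

open Finset

theorem p_sc (h_bx : S_bx) : S_sc := by
  intro N _ I s hs
  obtain ⟨hinj, hprec⟩ := hs
  have key : ∀ i j : N, s i ≤ s j ↔ (i = j ∨ I.prec i j ∨
      ∃ q ∈ (Finset.univ.filter (fun q : I.Pair => s q.1.1 < s q.1.2)), q.1 = (i, j)) := by
    intro i j
    constructor
    · intro h
      by_cases h1 : i = j
      · exact Or.inl h1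
      · by_cases h2 : I.prec i j
        · exact Or.inr (Or.inl h2)
        · refine Or.inr (Or.inr ?_)
          have h3 : ¬ I.prec j i := fun h3 => absurd (hprec j i h3) (not_lt.2 h)
          refine ⟨⟨(i, j), h1, h2, h3⟩, ?_, rfl⟩
          rw [Finset.mem_filter]
          exact ⟨Finset.mem_univ _, lt_of_le_of_ne h (fun e => h1 (hinj e))⟩
    · rintro (h | h | ⟨q, hq, h⟩)
      · rw [h]
      · exact (hprec i j h).le
      · rw [Finset.mem_filter] at hq
        have h2 := hq.2
        rw [h] at h2
        exact h2.le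
  have hle : ∀ i l : N, I.le i l → s i ≤ s l := by
    rintro i l (h | h)
    · exact (hprec i l h).le
    · rw [h]
  refine ⟨Finset.univ.filter (fun q : I.Pair => s q.1.1 < s q.1.2), ?_, ?_⟩
  · intro u v huv
    by_contra hc
    rw [not_or, Finset.mem_filter, Finset.mem_filter, not_and, not_and, not_lt, not_lt] at hc
    have h1 := hc.1 (Finset.mem_univ _)
    have h2 := hc.2 (Finset.mem_univ _)
    obtain ⟨-, h3, h4⟩ := huv
    have h5 := hle _ _ h3
    have h6 := hle _ _ h4
    have h7 : s u.1.2 ≠ s u.1.1 := fun e => u.2.1 (hinj e).symm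
    omega
  · rw [← h_bx N I]
    unfold Inst.cost Inst.completion
    refine Finset.sum_congr rfl fun j _ => ?_
    congr 1
    refine Finset.sum_congr ?_ fun _ _ => rfl
    ext i
    rw [Finset.mem_filter, Finset.mem_filter]
    exact and_congr_right fun _ => key i j

end Pool.Agent.MP_49bd53_lc
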