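import Pool.Agent.Lib.MP_49bd53_lc.SP.Stm

/-!
# MP_49bd53_lc : piece sr
-/

open scoped Classical

namespace Pool.Agent.MP_49bd53_lc

theorem p_sr : S_sr := by
  intro X _ K _ k
  let e : X ≃ Fin (Fintype.card X) := Fintype.equivFin X
  let κ : X → Lex (K × Fin (Fintype.card X)) := fun x => toLex (k x, e x)
  have hκ : Function.Injective κ := by
    intro x y h
    have h1 : (k x, e x) = (k y, e y) := toLex.injective h
    exact e.injective (Prod.ext_iff.mp h1).2
  have hmono : ∀ x y, κ x < κ y →
      (Finset.univ.filter (fun z => κ z < κ x)).card <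
        (Finset.univ.filter (fun z => κ z < κ y)).card := by
    intro x y h
    apply Finset.card_lt_card
    rw [Finset.ssubset_iff_of_subset]
    · exact ⟨x, by simp [h], by simp⟩
    · intro z hz
      simp only [Finset.mem_filter, Finset.mem_univ, true_and] at hz ⊢
      exact lt_trans hz h
  refine ⟨fun x => (Finset.univ.filter (fun z => κ z < κ x)).card, ?_, ?_⟩
  · intro x y h
    by_contra hne
    rcases lt_or_gt_of_ne (fun h' => hne (hκ h') : κ x ≠ κ y) with h1 | h1
    · exact (hmono x y h1).ne h
    · exact (hmono y x h1).ne' h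
  · intro x y h
    apply hmono
    exact Prod.Lex.toLex_lt_toLex.mpr (Or.inl h)

end Pool.Agent.MP_49bd53_lc
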