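import Pool.Agent.Lib.MP_49bd53_lc.SP.Stm

/-!
# MP_49bd53_lc : a vertex cover of the conflict graph gives a tournament
-/

open scoped Classical

namespace Pool.Agent.MP_49bd53_lc

theorem to_le_trans {N : Type} (I : Inst N) {k j i l : N} (h1 : I.le k j) (h2 : I.prec j i)
    (h3 : I.le i l) : I.prec k l := by
  have h4 : I.prec k i := by
    rcases h1 with h | h
    · exact I.trans k j i h h2
    · rw [h]; exact h2
  rcases h3 with h | h
  · exact I.trans k i l h4 h
  · rw [← h]; exact h4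

theorem to_p1 {N : Type} (I : Inst N) (X : Finset I.Pair) (hX : IsCover I.conflict X)
    {i l k j : N} (h1 : I.le i l) (h2 : I.le k j)
    (hn1 : ¬ (i = j ∨ I.prec i j ∨ ∃ q ∈ X, q.1 = (i, j)))
    (hn2 : ¬ (k = l ∨ I.prec k l ∨ ∃ q ∈ X, q.1 = (k, l))) : False := by
  have a1 : i ≠ j := fun h => hn1 (Or.inl h)
  have a2 : ¬ I.prec i j := fun h => hn1 (Or.inr (Or.inl h))
  have a3 : ∀ q ∈ X, q.1 ≠ (i, j) := fun q hq h => hn1 (Or.inr (Or.inr ⟨q, hq, h⟩))
  have b1 : k ≠ l := fun h => hn2 (Or.inl h)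
  have b2 : ¬ I.prec k l := fun h => hn2 (Or.inr (Or.inl h))
  have b3 : ∀ q ∈ X, q.1 ≠ (k, l) := fun q hq h => hn2 (Or.inr (Or.inr ⟨q, hq, h⟩))
  have a4 : ¬ I.prec j i := fun h => b2 (to_le_trans I h2 h h1)
  have b4 : ¬ I.prec l k := fun h => a2 (to_le_trans I h1 h h2)
  have hne : (⟨(i, j), a1, a2, a4⟩ : I.Pair) ≠ ⟨(k, l), b1, b2, b4⟩ := by
    intro h
    have h' : (i, j) = (k, l) := congrArg Subtype.val h
    have hj : j = l := congrArg Prod.snd h'
    rw [← hj] at h1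
    rcases h1 with h1 | h1
    · exact a2 h1
    · exact a1 h1
  have hadj : I.conflict.Adj (⟨(i, j), a1, a2, a4⟩ : I.Pair) ⟨(k, l), b1, b2, b4⟩ :=
    ⟨hne, h1, h2⟩
  rcases hX _ _ hadj with h | h
  · exact a3 _ h rfl
  · exact b3 _ h rfl

theorem p_to : S_to := by
  intro N _ I X hX
  let F : N → N → Prop := fun i j => i = j ∨ I.prec i j ∨ ∃ q ∈ X, q.1 = (i, j)
  let Q : N → N → Prop := fun i k => ∀ j, I.le k j → F i j
  have hQ : ∀ i k, Q i k ∨ Q k i := by
    intro i k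
    by_contra hcon
    have hc1 : ¬ Q i k := fun h => hcon (Or.inl h)
    have hc2 : ¬ Q k i := fun h => hcon (Or.inr h)
    obtain ⟨j, hj⟩ := Classical.not_forall.1 hc1
    obtain ⟨l, hl⟩ := Classical.not_forall.1 hc2
    obtain ⟨hkj, hFij⟩ := Classical.not_imp.1 hj
    obtain ⟨hil, hFkl⟩ := Classical.not_imp.1 hl
    exact to_p1 I X hX hil hkj hFij hFkl
  let e : N ≃ Fin (Fintype.card N) := Fintype.equivFin N
  refine ⟨fun i k => i ≠ k ∧ Q i k ∧ (¬ Q k i ∨ e i < e k), ⟨?_, ?_⟩, ?_⟩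
  · intro i h
    exact h.1 rfl
  · intro i j hij
    have hne : e i ≠ e j := fun h => hij (e.injective h)
    constructor
    · rintro ⟨-, h2, h3⟩ ⟨-, h5, h6⟩
      rcases h3 with h3 | h3
      · exact h3 h5
      · rcases h6 with h6 | h6
        · exact h6 h2
        · exact lt_asymm h3 h6
    · intro h
      by_cases h2 : Q i j
      · refine ⟨hij, h2, ?_⟩
        by_cases h3 : Q j i
        · right
          rcases lt_or_gt_of_ne hne with h4 | h4
          · exact h4
          · exact absurd ⟨hij.symm, h3, Or.inr h4⟩ h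
        · exact Or.inl h3
      · have h3 : Q j i := (hQ i j).resolve_left h2
        exact absurd ⟨hij.symm, h3, Or.inl h2⟩ h
  · intro i k j hT hkj
    exact hT.2.1 j hkj

end Pool.Agent.MP_49bd53_lc
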