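import Pool.Agent.Lib.MP_49bd53_lc.SP.Stm

/-!
# Truncation of the weights does not change `vc - lp` below `K + 1`
-/

open scoped Classical

namespace Pool.Agent.MP_49bd53_lc

noncomputable section

open Finset

private theorem tr_vc_mem {V : Type} [Fintype V] (G : SimpleGraph V) (wt : V → ℕ) :
    ∃ C : Finset V, IsCover G C ∧ vc G wt = ∑ v ∈ C, wt v := by
  have h : (sInf {c | ∃ C : Finset V, IsCover G C ∧ c = ∑ v ∈ C, wt v}) ∈
      {c | ∃ C : Finset V, IsCover G C ∧ c = ∑ v ∈ C, wt v} :=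
    Nat.sInf_mem ⟨_, univ, fun u _ _ => Or.inl (mem_univ u), rfl⟩
  exact h

private theorem tr_vc_le {V : Type} [Fintype V] (G : SimpleGraph V) (wt : V → ℕ) (C : Finset V)
    (hC : IsCover G C) : vc G wt ≤ ∑ v ∈ C, wt v :=
  Nat.sInf_le ⟨C, hC, rfl⟩

theorem p_tr (h_lt : S_lt) (h_ex : S_ex) (h_mn : S_mn) : S_tr := by
  intro V _ G wt y hy K
  -- the slack
  obtain ⟨t, ht⟩ : ∃ t : V → ℕ, t = fun u => 2 * wt u - ∑ v, y u v := ⟨_, rfl⟩
  have hload : ∀ u, ∑ v, y u v + t u = 2 * wt u := by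
    intro u
    have h1 := hy.load u
    rw [ht]
    change ∑ v, y u v + (2 * wt u - ∑ v, y u v) = 2 * wt u
    omega
  have hdiag : ∀ u, y u u = 0 := by
    intro u
    by_contra h
    exact G.loopless.irrefl u (hy.supp u u h)
  -- the two excess functions
  obtain ⟨E, hE⟩ : ∃ E : Finset V → ℕ,
      E = fun C => ∑ u ∈ C, ∑ v ∈ C, y u v + 2 * ∑ u ∈ C, t u := ⟨_, rfl⟩
  obtain ⟨E', hE'⟩ : ∃ E' : Finset V → ℕ,
      E' = fun C => ∑ u ∈ C, ∑ v ∈ C, min (y u v) (K + 1) + 2 * ∑ u ∈ C, min (t u) (K + 1) :=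
    ⟨_, rfl⟩
  obtain ⟨S, hS⟩ : ∃ S : ℕ, S = ∑ u, ∑ v, y u v := ⟨_, rfl⟩
  obtain ⟨S', hS'⟩ : ∃ S' : ℕ, S' = ∑ u, ∑ v, min (y u v) (K + 1) := ⟨_, rfl⟩
  have h1 : ∀ C : Finset V, IsCover G C → 4 * ∑ u ∈ C, wt u = S + E C := by
    intro C hC
    have h := h_ex V G y t C hy.symm hy.supp hC
    have h2 : ∑ u ∈ C, (∑ v, y u v + t u) = 2 * ∑ u ∈ C, wt u := by
      rw [mul_sum]
      exact sum_congr rfl fun u _ => hload u
    rw [h2] at h
    rw [hS, hE]
    change _ = _ + (∑ u ∈ C, ∑ v ∈ C, y u v + 2 * ∑ u ∈ C, t u)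
    omega
  have h1' : ∀ C : Finset V, IsCover G C → 2 * ∑ u ∈ C, trunc wt y K u = S' + E' C := by
    intro C hC
    have h := h_ex V G (fun u v => min (y u v) (K + 1)) (fun u => min (t u) (K + 1)) C
      (fun u v => by
        rw [hy.symm u v])
      (fun u v huv => by
        refine hy.supp u v fun h0 => huv ?_
        rw [h0]
        exact Nat.zero_min _) hC
    have h2 : ∑ u ∈ C, trunc wt y K u =
        ∑ u ∈ C, (∑ v, min (y u v) (K + 1) + min (t u) (K + 1)) := by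
      refine sum_congr rfl fun u _ => ?_
      rw [ht]
      rfl
    rw [h2, hS', hE']
    change _ = _ + (∑ u ∈ C, ∑ v ∈ C, min (y u v) (K + 1) + 2 * ∑ u ∈ C, min (t u) (K + 1))
    omega
  have h3 : ∀ C : Finset V, min (E C) (2 * (K + 1)) = min (E' C) (2 * (K + 1)) := by
    intro C
    rw [hE, hE']
    exact h_mn V y t C K hy.symm hdiag
  obtain ⟨C, hC, hvC⟩ := tr_vc_mem G wt
  obtain ⟨C', hC', hvC'⟩ := tr_vc_mem G (trunc wt y K)
  have ha : 4 * vc G wt = S + E C := by rw [hvC, h1 C hC]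
  have hb : 2 * vc G (trunc wt y K) = S' + E' C' := by rw [hvC', h1' C' hC']
  have hab : E C ≤ E C' := by
    have h4 := tr_vc_le G wt C' hC'
    have h5 := h1 C' hC'
    omega
  have hba : E' C' ≤ E' C := by
    have h4 := tr_vc_le G (trunc wt y K) C hC
    have h5 := h1' C hC
    omega
  have hmin : min (E C) (2 * (K + 1)) = min (E' C') (2 * (K + 1)) := by
    have h4 := h3 C
    have h5 := h3 C'
    omega
  have hlp : (S : ℝ) = 4 * lp G wt := by
    rw [hS]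
    exact hy.opt
  have hlp' : lp G (trunc wt y K) = (S' : ℝ) / 2 := by
    rw [hS']
    exact h_lt V G wt y hy K
  have hA : 2 * ((vc G wt : ℝ) - lp G wt) = (E C : ℝ) / 2 := by
    have h4 : (4 : ℝ) * (vc G wt : ℝ) = (S : ℝ) + (E C : ℝ) := by exact_mod_cast ha
    linarith
  have hB : (vc G (trunc wt y K) : ℝ) - lp G (trunc wt y K) = (E' C' : ℝ) / 2 := by
    have h4 : (2 : ℝ) * (vc G (trunc wt y K) : ℝ) = (S' : ℝ) + (E' C' : ℝ) := by
      exact_mod_cast hb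
    rw [hlp']
    linarith
  have hminR : min ((E C : ℕ) : ℝ) (2 * ((K : ℝ) + 1)) =
      min ((E' C' : ℕ) : ℝ) (2 * ((K : ℝ) + 1)) := by
    have h4 : ((min (E C) (2 * (K + 1)) : ℕ) : ℝ) = ((min (E' C') (2 * (K + 1)) : ℕ) : ℝ) := by
      rw [hmin]
    push_cast at h4
    exact h4
  have hK : (K : ℝ) + 1 = (2 * ((K : ℝ) + 1)) / 2 := by ring
  rw [hA, hB, hK, min_div_div_right (by norm_num : (0 : ℝ) ≤ 2),
    min_div_div_right (by norm_num : (0 : ℝ) ≤ 2), hminR]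

end

end Pool.Agent.MP_49bd53_lc
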