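import Pool.Agent.Lib.MP_49bd53_lc.SP.Stm

/-!
# MP_49bd53_lc : weak duality with the exact difference
-/

open scoped Classical

namespace Pool.Agent.MP_49bd53_lc

noncomputable section

open Finset

theorem p_wd : S_wd := by
  intro V _ c z x hz
  have h1 : ∑ u, ∑ v, z u v * x v = ∑ u, ∑ v, z u v * x u := by
    rw [sum_comm]
    refine sum_congr rfl fun v _ => sum_congr rfl fun u _ => ?_
    rw [hz u v]
  have h2 : ∑ u, ∑ v, z u v * (x u + x v - 1) =
      ∑ u, ∑ v, z u v * x u + ∑ u, ∑ v, z u v * x v - ∑ u, ∑ v, z u v := by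
    rw [← sum_add_distrib, ← sum_sub_distrib]
    refine sum_congr rfl fun u _ => ?_
    rw [← sum_add_distrib, ← sum_sub_distrib]
    refine sum_congr rfl fun v _ => ?_
    ring
  have h3 : ∑ v, (2 * c v - ∑ u, z v u) * x v =
      2 * ∑ v, c v * x v - ∑ u, ∑ v, z u v * x u := by
    rw [mul_sum, ← sum_sub_distrib]
    refine sum_congr rfl fun v _ => ?_
    rw [sub_mul, sum_mul]
    ring
  rw [h2, h3, h1]
  ring

end

end Pool.Agent.MP_49bd53_lc
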